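import Pool.Agent.Helper11.BR.Defs

/-!
# Project BR, block GEO-N: pairings, norms, distances

`br Γ g h` is the pairing of the ends of `g` and `h`, `nx Γ x g` is the norm of the end of `g` seen
from the point `x`.
-/

set_option autoImplicit false

open Real

namespace Pool.Agent.H99.BR

open Pool.Agent.Helper11.BR

variable {G : Type} [Group G] [TopologicalSpace G] (Γ : R1 G)

/-- the pairing of two ends -/
def br (g h : G) : ℝ := Γ.gam (g⁻¹ * h)

/-- the norm of an end seen from a point -/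
def nx (x g : G) : ℝ := Γ.nm (x⁻¹ * g)

/-! ### dilations -/

theorem dg_zero : Γ.dg 0 = 1 := by
  have h := Γ.dg_add 0 0
  rw [add_zero] at h
  exact left_eq_mul.1 h

theorem dg_neg (t : ℝ) : Γ.dg (-t) = (Γ.dg t)⁻¹ := by
  have h := Γ.dg_add (-t) t
  rw [neg_add_cancel, dg_zero] at h
  exact eq_inv_of_mul_eq_one_left h.symm

/-! ### the distance -/

theorem d_self (x : G) : Γ.d x x = 0 := by
  unfold R1.d
  rw [inv_mul_cancel, Γ.rho_one]

theorem d_comm (x y : G) : Γ.d x y = Γ.d y x := by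
  unfold R1.d
  rw [← Γ.rho_inv, mul_inv_rev, inv_inv]

theorem d_tri (x y z : G) : Γ.d x z ≤ Γ.d x y + Γ.d y z := by
  unfold R1.d
  have h := Γ.rho_mul (x⁻¹ * y) (y⁻¹ * z)
  rwa [mul_assoc, mul_inv_cancel_left] at h

theorem d_mul (k x y : G) : Γ.d (k * x) (k * y) = Γ.d x y := by
  unfold R1.d
  rw [mul_inv_rev, mul_assoc, inv_mul_cancel_left]

theorem d_nonneg (x y : G) : 0 ≤ Γ.d x y := by
  have h1 := d_tri Γ x y x
  rw [d_self, d_comm Γ y x] at h1
  linarith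

/-- comparison of the displacements of two near points -/
theorem d_disp (p x y : G) : Γ.d x (p * x) ≤ 2 * Γ.d x y + Γ.d y (p * y) := by
  have h1 := d_tri Γ x y (p * x)
  have h2 := d_tri Γ y (p * y) (p * x)
  rw [d_mul, d_comm Γ y x] at h2
  linarith

/-! ### the pairing -/

theorem br_nonneg (g h : G) : 0 ≤ br Γ g h := Γ.gam_nonneg _

theorem br_comm (g h : G) : br Γ g h = br Γ h g := by
  unfold br
  rw [← Γ.gam_inv, mul_inv_rev, inv_inv]

theorem br_mul (k g h : G) : br Γ (k * g) (k * h) = br Γ g h := by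
  unfold br
  rw [mul_inv_rev, mul_assoc, inv_mul_cancel_left]

theorem br_self (g : G) : br Γ g g = 0 := by
  unfold br
  rw [inv_mul_cancel, Γ.gam_one]

theorem br_dg (g h : G) (t : ℝ) : br Γ g (h * Γ.dg t) = exp t * br Γ g h := by
  unfold br
  rw [← mul_assoc, Γ.gam_dg]

theorem br_dg' (g h : G) (t : ℝ) : br Γ (g * Γ.dg t) h = exp t * br Γ g h := by
  rw [br_comm, br_dg, br_comm]

theorem br_flip (g : G) : br Γ g (g * Γ.flip) = 1 := by
  unfold br
  rw [inv_mul_cancel_left, Γ.gam_flip]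

theorem br_flip_flip (g h : G) : br Γ (g * Γ.flip * Γ.flip) h = br Γ g h := by
  unfold br
  rw [← Γ.gam_flip_flip ((g * Γ.flip * Γ.flip)⁻¹ * h)]
  congr 1
  group

theorem br_U {u : G} (hu : u ∈ Γ.U) (g h : G) : br Γ (g * u) h = br Γ g h := by
  unfold br
  rw [mul_inv_rev, mul_assoc, Γ.gam_U _ (Γ.U.inv_mem hu)]

theorem br_U' {u : G} (hu : u ∈ Γ.U) (g h : G) : br Γ g (h * u) = br Γ g h := by
  rw [br_comm, br_U Γ hu, br_comm]

/-- the ends of a point of a line -/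
theorem ln_flip_eq (n : G) (τ : ℝ) : Γ.ln n τ * Γ.flip = n * Γ.flip * Γ.dg (-τ) := by
  unfold R1.ln
  have h := Γ.flip_dg (-τ)
  rw [neg_neg] at h
  rw [mul_assoc, mul_assoc, h]

theorem br_ln (n g : G) (τ : ℝ) : br Γ (Γ.ln n τ) g = exp τ * br Γ n g := br_dg' Γ n g τ

theorem br_ln_flip (n g : G) (τ : ℝ) :
    br Γ (Γ.ln n τ * Γ.flip) g = exp (-τ) * br Γ (n * Γ.flip) g := by
  rw [ln_flip_eq, br_dg']

/-! ### norms -/

theorem nm_pos (g : G) : 0 < Γ.nm g := by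
  have h := Γ.nm_mul g⁻¹ g
  rw [inv_mul_cancel, Γ.nm_one] at h
  have h2 := exp_pos (Γ.rho g⁻¹)
  by_contra hc
  push Not at hc
  have := mul_nonpos_of_nonneg_of_nonpos h2.le hc
  linarith

theorem nx_pos (x g : G) : 0 < nx Γ x g := nm_pos Γ _

theorem nx_mul (k x g : G) : nx Γ (k * x) (k * g) = nx Γ x g := by
  unfold nx
  rw [mul_inv_rev, mul_assoc, inv_mul_cancel_left]

theorem nx_self (x : G) : nx Γ x x = 1 := by
  unfold nx
  rw [inv_mul_cancel, Γ.nm_one]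

theorem nx_dg (x g : G) (t : ℝ) : nx Γ x (g * Γ.dg t) = exp t * nx Γ x g := by
  unfold nx
  rw [← mul_assoc, Γ.nm_dg]

theorem nx_U {u : G} (hu : u ∈ Γ.U) (x g : G) : nx Γ x (g * u) = nx Γ x g := by
  unfold nx
  rw [← mul_assoc, Γ.nm_U _ hu]

theorem nx_le_exp (x y g : G) : nx Γ x g ≤ exp (Γ.d x y) * nx Γ y g := by
  unfold nx R1.d
  have h := Γ.nm_mul (x⁻¹ * y) (y⁻¹ * g)
  rwa [mul_assoc, mul_inv_cancel_left] at h

theorem nx_le (x g : G) : nx Γ x g ≤ br Γ x g + br Γ (x * Γ.flip) g := by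
  unfold nx br
  have h := Γ.nm_le (x⁻¹ * g)
  rwa [← mul_assoc, ← mul_inv_rev] at h

theorem br_le_nx (x g h : G) : br Γ g h ≤ nx Γ x g * nx Γ x h := by
  unfold nx br
  have h1 := Γ.gam_le_mul (x⁻¹ * g) (x⁻¹ * h)
  rwa [mul_inv_rev, inv_inv, mul_assoc, mul_inv_cancel_left] at h1

theorem nm_flip_le : Γ.nm Γ.flip ≤ 1 := by
  have h := Γ.nm_mul Γ.flip 1
  rwa [mul_one, Γ.rho_flip, exp_zero, one_mul, Γ.nm_one] at h

theorem nx_flip_le (x : G) : nx Γ x (x * Γ.flip) ≤ 1 := by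
  unfold nx
  rw [inv_mul_cancel_left]
  exact nm_flip_le Γ

theorem br_le (x g : G) : br Γ x g ≤ nx Γ x g := by
  have h := br_le_nx Γ x x g
  rwa [nx_self, one_mul] at h

theorem br_flip_le (x g : G) : br Γ (x * Γ.flip) g ≤ nx Γ x g := by
  have h := br_le_nx Γ x (x * Γ.flip) g
  have h2 := mul_le_mul_of_nonneg_right (nx_flip_le Γ x) (nx_pos Γ x g).le
  rw [one_mul] at h2
  exact h.trans h2

/-- the norm of the head of a line -/
theorem nx_ln (n : G) (τ : ℝ) : nx Γ (Γ.ln n τ) n = exp (-τ) := by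
  unfold nx R1.ln
  rw [mul_inv_rev, inv_mul_cancel_right, ← dg_neg]
  have h := Γ.nm_dg 1 (-τ)
  rwa [one_mul, Γ.nm_one, mul_one] at h

/-! ### distances and corners -/

theorem exp_d_le (x y : G) : exp (Γ.d x y) ≤ br Γ x y + br Γ (x * Γ.flip) y +
    br Γ x (y * Γ.flip) + br Γ (x * Γ.flip) (y * Γ.flip) := by
  have h := Γ.rho_le (x⁻¹ * y)
  unfold R1.d br
  have e1 : (x * Γ.flip)⁻¹ * y = Γ.flip⁻¹ * (x⁻¹ * y) := by group
  have e2 : x⁻¹ * (y * Γ.flip) = x⁻¹ * y * Γ.flip := by group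
  have e3 : (x * Γ.flip)⁻¹ * (y * Γ.flip) = Γ.flip⁻¹ * (x⁻¹ * y) * Γ.flip := by group
  rw [e1, e2, e3]
  exact h

/-- the distance is bounded by the norms of the ends -/
theorem exp_d_le_nx (x y : G) : exp (Γ.d x y) ≤ 2 * nx Γ x y + 2 * nx Γ x (y * Γ.flip) := by
  have h := exp_d_le Γ x y
  have h1 := br_le Γ x y
  have h2 := br_flip_le Γ x y
  have h3 := br_le Γ x (y * Γ.flip)
  have h4 := br_flip_le Γ x (y * Γ.flip)
  linarith

theorem nx_self_le (x y : G) : nx Γ x y ≤ exp (Γ.d x y) := by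
  have h := nx_le_exp Γ x y y
  rwa [nx_self, mul_one] at h

theorem nx_flip_le_exp (x y : G) : nx Γ x (y * Γ.flip) ≤ exp (Γ.d x y) := by
  have h := nx_le_exp Γ x y (y * Γ.flip)
  have h2 := mul_le_mul_of_nonneg_left (nx_flip_le Γ y) (exp_pos (Γ.d x y)).le
  rw [mul_one] at h2
  exact h.trans h2

theorem corner1 (x y : G) : br Γ x y ≤ exp (Γ.d x y) :=
  (br_le Γ x y).trans (nx_self_le Γ x y)

theorem corner2 (x y : G) : br Γ (x * Γ.flip) y ≤ exp (Γ.d x y) :=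
  (br_flip_le Γ x y).trans (nx_self_le Γ x y)

theorem corner3 (x y : G) : br Γ x (y * Γ.flip) ≤ exp (Γ.d x y) :=
  (br_le Γ x _).trans (nx_flip_le_exp Γ x y)

theorem corner4 (x y : G) : br Γ (x * Γ.flip) (y * Γ.flip) ≤ exp (Γ.d x y) :=
  (br_flip_le Γ x _).trans (nx_flip_le_exp Γ x y)

/-! ### equal ends -/

theorem sameEnd_iff (g h : G) : Γ.SameEnd g h ↔ br Γ g h = 0 := Iff.rfl

theorem same_refl (g : G) : Γ.SameEnd g g := br_self Γ g

theorem same_symm {g h : G} (H : Γ.SameEnd g h) : Γ.SameEnd h g := by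
  rw [sameEnd_iff] at *
  rwa [br_comm]

theorem same_mul (g h k : G) : Γ.SameEnd (g * h) (g * k) ↔ Γ.SameEnd h k := by
  rw [sameEnd_iff, sameEnd_iff, br_mul]

theorem same_scale {x y : G} (H : Γ.SameEnd x y) : ∃ s : ℝ,
    (∀ h, br Γ h y = exp s * br Γ h x) ∧ ∀ h, nx Γ h y = exp s * nx Γ h x := by
  obtain ⟨s, h1, h2, -⟩ := Γ.end_scale (x⁻¹ * y) H
  refine ⟨s, fun h => ?_, fun h => ?_⟩
  · have := h1 (h⁻¹ * x)
    rwa [mul_assoc, mul_inv_cancel_left] at this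
  · have := h2 (h⁻¹ * x)
    rwa [mul_assoc, mul_inv_cancel_left] at this

theorem same_trans {g h k : G} (H : Γ.SameEnd g h) (H' : Γ.SameEnd h k) : Γ.SameEnd g k := by
  obtain ⟨s, h1, -⟩ := same_scale Γ H'
  rw [sameEnd_iff] at *
  rw [h1, H, mul_zero]

theorem same_U {u : G} (hu : u ∈ Γ.U) (g : G) : Γ.SameEnd g (g * u) := by
  rw [sameEnd_iff, br_U' Γ hu, br_self]

/-! ### the line from `b` to `a` -/

theorem br_line (a b g : G) : br Γ (Γ.line a b) g = br Γ a g := by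
  unfold R1.line
  exact br_U Γ (Γ.nu_mem _) a g

theorem nx_line (a b x : G) : nx Γ x (Γ.line a b) = nx Γ x a := by
  unfold R1.line
  exact nx_U Γ (Γ.nu_mem _) x a

theorem line_flip {a b : G} (h : ¬ Γ.SameEnd a b) : Γ.SameEnd (Γ.line a b * Γ.flip) b := by
  have h1 := Γ.nu_end (a⁻¹ * b) h
  unfold R1.SameEnd R1.line
  have e : (a * Γ.nu (a⁻¹ * b) * Γ.flip)⁻¹ * b =
      (Γ.nu (a⁻¹ * b) * Γ.flip)⁻¹ * (a⁻¹ * b) := by group
  rw [e]
  exact h1

/-- the end `b`, in terms of the line from `b` to `a` -/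
theorem line_scale {a b : G} (h : ¬ Γ.SameEnd a b) :
    (∀ x, br Γ x b = br Γ a b * br Γ x (Γ.line a b * Γ.flip)) ∧
      ∀ x, nx Γ x b = br Γ a b * nx Γ x (Γ.line a b * Γ.flip) := by
  obtain ⟨s, h1, h2⟩ := same_scale Γ (line_flip Γ h)
  have h3 := h1 (Γ.line a b)
  rw [br_line, br_flip, mul_one] at h3
  rw [h3]
  exact ⟨h1, h2⟩

theorem br_pos {a b : G} (h : ¬ Γ.SameEnd a b) : 0 < br Γ a b :=
  lt_of_le_of_ne (br_nonneg Γ a b) (Ne.symm h)

theorem line_mul (h a b : G) : Γ.line (h * a) (h * b) = h * Γ.line a b := by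
  unfold R1.line
  rw [mul_inv_rev, mul_assoc a⁻¹ h⁻¹, inv_mul_cancel_left, mul_assoc]

/-! ### Ptolemy -/

theorem ptol_n (n p q : G) : √(br Γ p q) ≤
    √(br Γ n p * br Γ (n * Γ.flip) q) + √(br Γ (n * Γ.flip) p * br Γ n q) := by
  have h := Γ.ptol (n⁻¹ * p) (n⁻¹ * q)
  unfold br
  have e1 : (n⁻¹ * p)⁻¹ * (n⁻¹ * q) = p⁻¹ * q := by group
  have e2 : ∀ x : G, (n * Γ.flip)⁻¹ * x = Γ.flip⁻¹ * (n⁻¹ * x) := fun x => by group
  rw [e1] at h
  rw [e2, e2]
  exact h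

theorem ptolemy (p q r s : G) : √(br Γ p q * br Γ r s) ≤
    √(br Γ p r * br Γ q s) + √(br Γ p s * br Γ q r) := by
  by_cases h : Γ.SameEnd r s
  · have h0 : br Γ r s = 0 := h
    rw [h0, mul_zero, sqrt_zero]
    positivity
  have h1 := ptol_n Γ (Γ.line r s) p q
  obtain ⟨h2, -⟩ := line_scale Γ h
  have hp := br_pos Γ h
  have h3 : ∀ x, br Γ (Γ.line r s * Γ.flip) x = br Γ s x / br Γ r s := by
    intro x
    rw [br_comm Γ s x, h2 x, mul_div_cancel_left₀ _ hp.ne', br_comm]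
  rw [br_line, br_line, h3, h3] at h1
  have h4 := mul_le_mul_of_nonneg_right h1 (sqrt_nonneg (br Γ r s))
  rw [← sqrt_mul (br_nonneg Γ p q), add_mul, ← sqrt_mul, ← sqrt_mul] at h4
  · have e1 : br Γ r p * (br Γ s q / br Γ r s) * br Γ r s = br Γ p r * br Γ q s := by
      rw [br_comm Γ p r, br_comm Γ q s]
      field_simp
    have e2 : br Γ s p / br Γ r s * br Γ r q * br Γ r s = br Γ p s * br Γ q r := by
      rw [br_comm Γ p s, br_comm Γ q r]
      field_simp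
    rwa [e1, e2] at h4
  · exact mul_nonneg (div_nonneg (br_nonneg _ _ _) hp.le) (br_nonneg _ _ _)
  · exact mul_nonneg (br_nonneg _ _ _) (div_nonneg (br_nonneg _ _ _) hp.le)

/-! ### ahead and behind -/

theorem ahead_iff (n : G) (τ : ℝ) (g : G) :
    Γ.Ahead n τ g ↔ exp (2 * τ) * br Γ n g ≤ br Γ (n * Γ.flip) g := Iff.rfl

theorem behind_iff (n : G) (τ : ℝ) (g : G) :
    Γ.Behind n τ g ↔ br Γ (n * Γ.flip) g ≤ exp (2 * τ) * br Γ n g := Iff.rfl

theorem ahead_pos {n g : G} {τ : ℝ} (h : Γ.Ahead n τ g) : 0 < br Γ (n * Γ.flip) g := by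
  rw [ahead_iff] at h
  have h1 := nx_le Γ n g
  have h2 := nx_pos Γ n g
  have h3 := br_nonneg Γ n g
  have h4 := br_nonneg Γ (n * Γ.flip) g
  have h5 := exp_pos (2 * τ)
  rcases h4.eq_or_lt with h0 | h0
  · rw [← h0] at h h1
    have h6 : br Γ n g ≤ 0 := by
      by_contra hc
      push Not at hc
      have := mul_pos h5 hc
      linarith
    linarith
  · exact h0

theorem behind_pos {n g : G} {τ : ℝ} (h : Γ.Behind n τ g) : 0 < br Γ n g := by
  rw [behind_iff] at h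
  have h1 := nx_le Γ n g
  have h2 := nx_pos Γ n g
  have h3 := br_nonneg Γ n g
  rcases h3.eq_or_lt with h0 | h0
  · rw [← h0, mul_zero] at h
    rw [← h0] at h1
    linarith
  · exact h0

theorem ahead_mul (h n : G) (τ : ℝ) (g : G) : Γ.Ahead (h * n) τ (h * g) ↔ Γ.Ahead n τ g := by
  rw [ahead_iff, ahead_iff, mul_assoc, br_mul, br_mul]

theorem behind_mul (h n : G) (τ : ℝ) (g : G) : Γ.Behind (h * n) τ (h * g) ↔ Γ.Behind n τ g := by
  rw [behind_iff, behind_iff, mul_assoc, br_mul, br_mul]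

theorem ahead_mono {n g : G} {τ τ' : ℝ} (hτ : τ ≤ τ') (h : Γ.Ahead n τ' g) : Γ.Ahead n τ g := by
  rw [ahead_iff] at *
  exact (mul_le_mul_of_nonneg_right (exp_le_exp.2 (by linarith)) (br_nonneg _ _ _)).trans h

theorem behind_mono {n g : G} {τ τ' : ℝ} (hτ : τ ≤ τ') (h : Γ.Behind n τ g) :
    Γ.Behind n τ' g := by
  rw [behind_iff] at *
  exact h.trans (mul_le_mul_of_nonneg_right (exp_le_exp.2 (by linarith)) (br_nonneg _ _ _))

theorem ahead_flip (n : G) (τ : ℝ) (g : G) : Γ.Ahead (n * Γ.flip) (-τ) g ↔ Γ.Behind n τ g := by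
  rw [ahead_iff, behind_iff, br_flip_flip]
  have e : exp (2 * -τ) * exp (2 * τ) = 1 := by
    rw [← exp_add]
    ring_nf
    exact exp_zero
  have h1 := exp_pos (2 * τ)
  have h2 := exp_pos (2 * -τ)
  constructor
  · intro h
    have h3 := mul_le_mul_of_nonneg_left h h1.le
    rwa [← mul_assoc, mul_comm (exp (2 * τ)), e, one_mul] at h3
  · intro h
    have h3 := mul_le_mul_of_nonneg_left h h2.le
    rwa [← mul_assoc, e, one_mul] at h3

theorem behind_flip (n : G) (τ : ℝ) (g : G) : Γ.Behind (n * Γ.flip) (-τ) g ↔ Γ.Ahead n τ g := by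
  rw [ahead_iff, behind_iff, br_flip_flip]
  have e : exp (2 * -τ) * exp (2 * τ) = 1 := by
    rw [← exp_add]
    ring_nf
    exact exp_zero
  have h1 := exp_pos (2 * τ)
  have h2 := exp_pos (2 * -τ)
  constructor
  · intro h
    have h3 := mul_le_mul_of_nonneg_left h h1.le
    rwa [← mul_assoc, mul_comm (exp (2 * τ)) (exp (2 * -τ)), e, one_mul] at h3
  · intro h
    have h3 := mul_le_mul_of_nonneg_left h h2.le
    rwa [← mul_assoc, e, one_mul] at h3

theorem ahead_self (n : G) (τ : ℝ) : Γ.Ahead n τ n := by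
  rw [ahead_iff, br_self, mul_zero]
  exact br_nonneg _ _ _

theorem behind_opp (n : G) (τ : ℝ) : Γ.Behind n τ (n * Γ.flip) := by
  rw [behind_iff, br_self]
  exact mul_nonneg (exp_pos _).le (br_nonneg _ _ _)

theorem not_same {n a b : G} {τ₁ τ₂ : ℝ} (hτ : τ₁ < τ₂) (hb : Γ.Behind n τ₁ b)
    (ha : Γ.Ahead n τ₂ a) : ¬ Γ.SameEnd b a := by
  intro h
  obtain ⟨s, h1, -⟩ := same_scale Γ h
  have hp := ahead_pos Γ ha
  rw [ahead_iff] at ha
  rw [behind_iff] at hb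
  have h2 : br Γ (n * Γ.flip) a ≤ exp (2 * τ₁) * br Γ n a := by
    rw [h1, h1]
    have := mul_le_mul_of_nonneg_left hb (exp_pos s).le
    linarith
  have h3 : exp (2 * τ₁) * br Γ n a < exp (2 * τ₂) * br Γ n a := by
    have h4 : 0 < br Γ n a := by
      by_contra hc
      push Not at hc
      have := mul_nonpos_of_nonneg_of_nonpos (exp_pos (2 * τ₁)).le hc
      linarith
    exact mul_lt_mul_of_pos_right (exp_lt_exp.2 (by linarith)) h4
  linarith

theorem ln_dist (n : G) (a b : ℝ) : Γ.d (Γ.ln n a) (Γ.ln n b) = |a - b| := by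
  unfold R1.ln
  rw [d_mul]
  unfold R1.d
  rw [← dg_neg, ← Γ.dg_add, Γ.rho_dg, ← abs_neg]
  congr 1
  ring

theorem ln_flip (n : G) (τ : ℝ) : Γ.d (Γ.ln (n * Γ.flip) τ) (Γ.ln n (-τ)) = 0 := by
  have h := ln_flip_eq Γ n (-τ)
  rw [neg_neg] at h
  have h2 : Γ.ln (n * Γ.flip) τ = Γ.ln n (-τ) * Γ.flip := h.symm
  rw [h2, d_comm]
  unfold R1.d
  rw [inv_mul_cancel_left, Γ.rho_flip]

end Pool.Agent.H99.BR
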