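import Pool.Agent.H99.BR.Cls
import Pool.Agent.Helper53.BR.Prj

/-!
# Project BR, block GEO-G: Busemann functions and the projections to two close segments
-/

set_option autoImplicit false

open Real

namespace Pool.Agent.H99.BR

open Pool.Agent.Helper11.BR

variable {G : Type} [Group G] [TopologicalSpace G] (Γ : R1 G)

/-- the Busemann function at the end of `g` along the line of `n` -/
noncomputable def bus (n : G) (τ : ℝ) (g : G) : ℝ := log (nx Γ (Γ.ln n τ) g)

private theorem bus_le (n n' : G) (τ τ' : ℝ) (g : G) :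
    bus Γ n τ g ≤ bus Γ n' τ' g + Γ.d (Γ.ln n τ) (Γ.ln n' τ') := by
  unfold bus
  have h1 := nx_le_exp Γ (Γ.ln n τ) (Γ.ln n' τ') g
  have h2 := log_le_log (nx_pos Γ _ _) h1
  rw [log_mul (exp_pos _).ne' (nx_pos Γ _ _).ne', log_exp] at h2
  linarith

theorem bus_lip (n n' : G) (τ τ' : ℝ) (g : G) :
    |bus Γ n τ g - bus Γ n' τ' g| ≤ Γ.d (Γ.ln n τ) (Γ.ln n' τ') := by
  have h1 := bus_le Γ n n' τ τ' g
  have h2 := bus_le Γ n' n τ' τ g
  rw [d_comm] at h2
  rw [abs_le]
  constructor <;> linarith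

private theorem log2_le : log 2 ≤ 1 := by
  have := Real.log_two_lt_d9
  linarith

private theorem bus_behind {n g : G} {τ : ℝ} (h : Γ.Behind n τ g) :
    τ + log (br Γ n g) ≤ bus Γ n τ g ∧ bus Γ n τ g ≤ τ + log (br Γ n g) + log 2 := by
  have hp := behind_pos Γ h
  have h1 := log_le_log (by positivity) (le_nx_behind Γ n g τ)
  have h2 := log_le_log (nx_pos Γ _ _) (nx_behind Γ h)
  rw [log_mul (exp_pos _).ne' hp.ne', log_exp] at h1
  rw [log_mul two_ne_zero (by positivity), log_mul (exp_pos _).ne' hp.ne', log_exp] at h2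
  unfold bus
  constructor <;> linarith

private theorem bus_ahead {n g : G} {τ : ℝ} (h : Γ.Ahead n τ g) :
    -τ + log (br Γ (n * Γ.flip) g) ≤ bus Γ n τ g ∧
      bus Γ n τ g ≤ -τ + log (br Γ (n * Γ.flip) g) + log 2 := by
  have hp := ahead_pos Γ h
  have h1 := log_le_log (by positivity) (le_nx_ahead Γ n g τ)
  have h2 := log_le_log (nx_pos Γ _ _) (nx_ahead Γ h)
  rw [log_mul (exp_pos _).ne' hp.ne', log_exp] at h1
  rw [log_mul two_ne_zero (by positivity), log_mul (exp_pos _).ne' hp.ne', log_exp] at h2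
  unfold bus
  constructor <;> linarith

/-- the projection parameter in terms of the Busemann function -/
theorem bus_prj {n g : G} {α β p : ℝ} (hα : α ≤ p) (hβ : p ≤ β) (ha : α < p → Γ.Ahead n p g)
    (hb : p < β → Γ.Behind n p g) :
    |(β - α) - (bus Γ n β g - bus Γ n α g) - 2 * (p - α)| ≤ 1 := by
  have hl := log2_le
  have hl0 : 0 ≤ log 2 := log_nonneg (by norm_num)
  rcases hα.eq_or_lt with rfl | hα'
  · rcases hβ.eq_or_lt with rfl | hβ'
    · simp
    · have h := hb hβ'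
      obtain ⟨k1, k2⟩ := bus_behind Γ h
      obtain ⟨k3, k4⟩ := bus_behind Γ (behind_mono Γ hβ'.le h)
      rw [abs_le]
      constructor <;> linarith
  · have h := ha hα'
    obtain ⟨k1, k2⟩ := bus_ahead Γ (ahead_mono Γ hα'.le h)
    rcases hβ.eq_or_lt with rfl | hβ'
    · obtain ⟨k3, k4⟩ := bus_ahead Γ h
      rw [abs_le]
      constructor <;> linarith
    · have h' := hb hβ'
      obtain ⟨k3, k4⟩ := bus_behind Γ (behind_mono Γ hβ'.le h')
      have hx := ahead_pos Γ h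
      have hy := behind_pos Γ h'
      rw [ahead_iff] at h
      rw [behind_iff] at h'
      have e : br Γ (n * Γ.flip) g = exp (2 * p) * br Γ n g := le_antisymm h' h
      have e2 : log (br Γ (n * Γ.flip) g) = 2 * p + log (br Γ n g) := by
        rw [e, log_mul (exp_pos _).ne' hy.ne', log_exp]
      rw [abs_le]
      constructor <;> linarith

/-- comparison of the projections to two segments with close ends -/
theorem prj_close_aux {n n' g : G} {α β p α' β' p' C₀ : ℝ}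
    (h1 : Γ.d (Γ.ln n α) (Γ.ln n' α') ≤ C₀)
    (h2 : Γ.d (Γ.ln n β) (Γ.ln n' β') ≤ C₀) (hα : α ≤ p) (hβ : p ≤ β)
    (ha : α < p → Γ.Ahead n p g) (hb : p < β → Γ.Behind n p g) (hα' : α' ≤ p') (hβ' : p' ≤ β')
    (ha' : α' < p' → Γ.Ahead n' p' g) (hb' : p' < β' → Γ.Behind n' p' g) :
    |p + (α' - α) - p'| ≤ 2 * C₀ + 1 := by
  have e1 := abs_le.1 (bus_prj Γ hα hβ ha hb)
  have e2 := abs_le.1 (bus_prj Γ hα' hβ' ha' hb')
  have e3 := abs_le.1 ((bus_lip Γ n n' α α' g).trans h1)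
  have e4 := abs_le.1 ((bus_lip Γ n n' β β' g).trans h2)
  have e5 := abs_le.1 (close_len Γ (hα.trans hβ) (hα'.trans hβ') h1 h2)
  rw [abs_le]
  constructor <;> linarith

theorem prj_close : ∀ C₀ : ℝ, ∃ K₀ : ℝ, ∀ (n n' : G) (α β α' β' : ℝ) (g : G), α ≤ β → α' ≤ β' →
    Γ.d (Γ.ln n α) (Γ.ln n' α') ≤ C₀ → Γ.d (Γ.ln n β) (Γ.ln n' β') ≤ C₀ →
    |Helper53.BR.prj Γ α β n g + (α' - α) - Helper53.BR.prj Γ α' β' n' g| ≤ K₀ := by
  intro C₀
  refine ⟨2 * C₀ + 1, fun n n' α β α' β' g hαβ hαβ' h1 h2 => ?_⟩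
  have m1 := Helper53.BR.prj_mem Γ hαβ n g
  have m2 := Helper53.BR.prj_mem Γ hαβ' n' g
  exact prj_close_aux Γ h1 h2 m1.1 m1.2
    (fun h => Helper53.BR.prj_ahead Γ α β _ n g h le_rfl)
    (fun h => Helper53.BR.prj_behind Γ α β _ n g h le_rfl) m2.1 m2.2
    (fun h => Helper53.BR.prj_ahead Γ α' β' _ n' g h le_rfl)
    (fun h => Helper53.BR.prj_behind Γ α' β' _ n' g h le_rfl)

end Pool.Agent.H99.BR
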