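import Pool.Agent.H99.BR.Rt

/-!
# Project BR, block GEO-N: lines with close segments
-/

set_option autoImplicit false

open Real

namespace Pool.Agent.H99.BR

open Pool.Agent.Helper11.BR
open Pool.Agent.Helper11.BC (lmax lmin)

variable {G : Type} [Group G] [TopologicalSpace G] (Γ : R1 G)

theorem close_len {n n' : G} {τ₁ τ₂ τ₁' τ₂' C₀ : ℝ} (h : τ₁ ≤ τ₂) (h' : τ₁' ≤ τ₂')
    (h1 : Γ.d (Γ.ln n τ₁) (Γ.ln n' τ₁') ≤ C₀) (h2 : Γ.d (Γ.ln n τ₂) (Γ.ln n' τ₂') ≤ C₀) :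
    |(τ₂ - τ₁) - (τ₂' - τ₁')| ≤ 2 * C₀ := by
  have e1 : Γ.d (Γ.ln n τ₁) (Γ.ln n τ₂) = τ₂ - τ₁ := by
    rw [ln_dist, abs_sub_comm, abs_of_nonneg (by linarith)]
  have e2 : Γ.d (Γ.ln n' τ₁') (Γ.ln n' τ₂') = τ₂' - τ₁' := by
    rw [ln_dist, abs_sub_comm, abs_of_nonneg (by linarith)]
  have t1 := d_tri Γ (Γ.ln n τ₁) (Γ.ln n' τ₁') (Γ.ln n τ₂)
  have t2 := d_tri Γ (Γ.ln n' τ₁') (Γ.ln n' τ₂') (Γ.ln n τ₂)
  have t3 := d_tri Γ (Γ.ln n' τ₁') (Γ.ln n τ₁) (Γ.ln n' τ₂')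
  have t4 := d_tri Γ (Γ.ln n τ₁) (Γ.ln n τ₂) (Γ.ln n' τ₂')
  rw [d_comm Γ (Γ.ln n' τ₂') (Γ.ln n τ₂)] at t2
  rw [d_comm Γ (Γ.ln n' τ₁') (Γ.ln n τ₁)] at t3
  rw [abs_le]
  constructor <;> linarith

theorem close_ahead {n n' : G} {τ₁ τ₂ τ₁' τ₂' C₀ : ℝ} (h : τ₁ + (2 * C₀ + 1) ≤ τ₂)
    (h' : τ₁' ≤ τ₂') (h1 : Γ.d (Γ.ln n τ₁) (Γ.ln n' τ₁') ≤ C₀)
    (h2 : Γ.d (Γ.ln n τ₂) (Γ.ln n' τ₂') ≤ C₀) : Γ.Ahead n (τ₂ - (2 * C₀ + 1)) n' := by
  have hC : 0 ≤ C₀ := (d_nonneg Γ _ _).trans h1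
  have hl := abs_le.1 (close_len Γ (by linarith) h' h1 h2)
  have c1 := (corner1 Γ (Γ.ln n τ₂) (Γ.ln n' τ₂')).trans (exp_le_exp.2 h2)
  have e0 : br Γ (Γ.ln n τ₂) (Γ.ln n' τ₂') = exp (τ₂ + τ₂') * br Γ n n' := by
    rw [br_ln, br_comm, br_ln, br_comm, ← mul_assoc, ← exp_add]
  rw [e0] at c1
  have A : br Γ n n' ≤ exp (C₀ - τ₂ - τ₂') := by
    have := mul_le_mul_of_nonneg_left c1 (exp_pos (-(τ₂ + τ₂'))).le
    rw [← mul_assoc, ← exp_add, neg_add_cancel, exp_zero, one_mul, ← exp_add] at this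
    calc _ ≤ _ := this
      _ = _ := by congr 1; ring
  have b1 := nx_le_exp Γ (Γ.ln n' τ₁') (Γ.ln n τ₁) n'
  rw [nx_ln, d_comm] at b1
  have b2 := nx_le Γ (Γ.ln n τ₁) n'
  rw [br_ln, br_ln_flip] at b2
  have b3 : exp (-τ₁') ≤ exp C₀ * (exp τ₁ * br Γ n n' + exp (-τ₁) * br Γ (n * Γ.flip) n') := by
    calc _ ≤ _ := b1
      _ ≤ exp C₀ * nx Γ (Γ.ln n τ₁) n' :=
        mul_le_mul_of_nonneg_right (exp_le_exp.2 h1) (nx_pos Γ _ _).le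
      _ ≤ _ := mul_le_mul_of_nonneg_left b2 (exp_pos _).le
  have b4 : exp (-τ₁' - C₀) ≤ exp τ₁ * br Γ n n' + exp (-τ₁) * br Γ (n * Γ.flip) n' := by
    have := mul_le_mul_of_nonneg_left b3 (exp_pos (-C₀)).le
    rw [← mul_assoc (exp (-C₀)), ← exp_add, ← exp_add, neg_add_cancel, exp_zero, one_mul] at this
    calc _ = exp (-C₀ + -τ₁') := by congr 1; ring
      _ ≤ _ := this
  have b5 : exp τ₁ * br Γ n n' ≤ 1 / 2 * exp (-τ₁' - C₀) := by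
    calc exp τ₁ * br Γ n n' ≤ exp τ₁ * exp (C₀ - τ₂ - τ₂') :=
          mul_le_mul_of_nonneg_left A (exp_pos _).le
      _ = exp (τ₁ + (C₀ - τ₂ - τ₂')) := (exp_add _ _).symm
      _ ≤ exp (-1 + (-τ₁' - C₀)) := exp_le_exp.2 (by linarith)
      _ = exp (-1) * exp (-τ₁' - C₀) := exp_add _ _
      _ ≤ _ := mul_le_mul_of_nonneg_right exp_neg_one_le (exp_pos _).le
  have b6 : exp (-1 + (τ₁ - τ₁' - C₀)) ≤ br Γ (n * Γ.flip) n' := by
    have b7 : 1 / 2 * exp (-τ₁' - C₀) ≤ exp (-τ₁) * br Γ (n * Γ.flip) n' := by linarith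
    have b8 := mul_le_mul_of_nonneg_left b7 (exp_pos τ₁).le
    rw [← mul_assoc (exp τ₁) (exp (-τ₁)), ← exp_add, add_neg_cancel, exp_zero, one_mul] at b8
    calc exp (-1 + (τ₁ - τ₁' - C₀)) = exp (-1) * (exp τ₁ * exp (-τ₁' - C₀)) := by
          rw [← exp_add, ← exp_add]
          congr 1
          ring
      _ ≤ 1 / 2 * (exp τ₁ * exp (-τ₁' - C₀)) :=
          mul_le_mul_of_nonneg_right exp_neg_one_le (by positivity)
      _ = exp τ₁ * (1 / 2 * exp (-τ₁' - C₀)) := by ring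
      _ ≤ _ := b8
  rw [ahead_iff]
  calc exp (2 * (τ₂ - (2 * C₀ + 1))) * br Γ n n' ≤
        exp (2 * (τ₂ - (2 * C₀ + 1))) * exp (C₀ - τ₂ - τ₂') :=
        mul_le_mul_of_nonneg_left A (exp_pos _).le
    _ = exp (2 * (τ₂ - (2 * C₀ + 1)) + (C₀ - τ₂ - τ₂')) := (exp_add _ _).symm
    _ ≤ exp (-1 + (τ₁ - τ₁' - C₀)) := exp_le_exp.2 (by linarith)
    _ ≤ _ := b6

theorem d_ln_flip (n n' : G) (τ τ' : ℝ) :
    Γ.d (Γ.ln (n * Γ.flip) (-τ)) (Γ.ln (n' * Γ.flip) (-τ')) ≤ Γ.d (Γ.ln n τ) (Γ.ln n' τ') := by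
  have h1 := ln_flip Γ n (-τ)
  have h2 := ln_flip Γ n' (-τ')
  rw [neg_neg] at h1 h2
  have t1 := d_tri Γ (Γ.ln (n * Γ.flip) (-τ)) (Γ.ln n τ) (Γ.ln (n' * Γ.flip) (-τ'))
  have t2 := d_tri Γ (Γ.ln n τ) (Γ.ln n' τ') (Γ.ln (n' * Γ.flip) (-τ'))
  rw [d_comm Γ (Γ.ln n' τ')] at t2
  linarith

theorem close_behind {n n' : G} {τ₁ τ₂ τ₁' τ₂' C₀ : ℝ} (h : τ₁ + (2 * C₀ + 1) ≤ τ₂)
    (h' : τ₁' ≤ τ₂') (h1 : Γ.d (Γ.ln n τ₁) (Γ.ln n' τ₁') ≤ C₀)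
    (h2 : Γ.d (Γ.ln n τ₂) (Γ.ln n' τ₂') ≤ C₀) :
    Γ.Behind n (τ₁ + (2 * C₀ + 1)) (n' * Γ.flip) := by
  have h3 := close_ahead Γ (n := n * Γ.flip) (n' := n' * Γ.flip) (τ₁ := -τ₂) (τ₂ := -τ₁)
    (τ₁' := -τ₂') (τ₂' := -τ₁') (C₀ := C₀) (by linarith) (by linarith)
    ((d_ln_flip Γ n n' τ₂ τ₂').trans h2) ((d_ln_flip Γ n n' τ₁ τ₁').trans h1)
  have e : -τ₁ - (2 * C₀ + 1) = -(τ₁ + (2 * C₀ + 1)) := by ring
  rw [e, ahead_flip] at h3
  exact h3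

/-! ### roots seen from close lines -/

theorem nm_of_rho {k : G} (h : Γ.rho k = 0) : Γ.nm k = 1 := by
  have h1 := Γ.nm_mul k 1
  rw [mul_one, h, exp_zero, one_mul, Γ.nm_one] at h1
  have h2 := Γ.nm_mul k⁻¹ k
  rw [inv_mul_cancel, Γ.nm_one, Γ.rho_inv, h, exp_zero, one_mul] at h2
  exact le_antisymm h1 h2

/-- two points on the same line -/
theorem d_same_line {x y : G} (h1 : Γ.SameEnd x y)
    (h2 : Γ.SameEnd (x * Γ.flip) (y * Γ.flip)) : Γ.d x y ≤ |log (nx Γ x y)| := by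
  have e : Γ.flip⁻¹ * (x⁻¹ * y) * Γ.flip = (x * Γ.flip)⁻¹ * (y * Γ.flip) := by group
  obtain ⟨s, hs⟩ := Γ.two_ends (x⁻¹ * y) h1 (by rw [e]; exact h2)
  have h3 := nm_of_rho Γ hs
  rw [Γ.nm_dg] at h3
  have h4 : nx Γ x y = exp s := by
    have : exp (-s) * nx Γ x y = 1 := h3
    have h5 : exp s * (exp (-s) * nx Γ x y) = exp s := by rw [this, mul_one]
    rwa [← mul_assoc, ← exp_add, add_neg_cancel, exp_zero, one_mul] at h5
  rw [h4, log_exp]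
  have h6 := Γ.rho_mul (x⁻¹ * y * Γ.dg (-s)) (Γ.dg s)
  rw [hs, zero_add, Γ.rho_dg, mul_assoc, ← Γ.dg_add, neg_add_cancel, dg_zero, mul_one] at h6
  exact h6

theorem abs_log_le {x δ : ℝ} (h : |x - 1| ≤ δ) (hδ : δ ≤ 1 / 2) : |log x| ≤ 2 * δ := by
  obtain ⟨h1, h2⟩ := abs_le.1 h
  have hx : 1 / 2 ≤ x := by linarith
  have hx0 : 0 < x := by linarith
  have hδ0 : 0 ≤ δ := (abs_nonneg _).trans h
  have h3 := log_le_sub_one_of_pos hx0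
  have h4 := log_le_sub_one_of_pos (inv_pos.2 hx0)
  rw [log_inv] at h4
  have h5 : x⁻¹ - 1 ≤ 2 * δ := by
    have e : x⁻¹ - 1 = (1 - x) / x := by
      field_simp
    rw [e, div_le_iff₀ hx0]
    nlinarith
  rw [abs_le]
  constructor <;> linarith

theorem root_near {n n' b₁ : G} {D : List G} {τ₁ τ₂ τ₁' K : ℝ} (hD : D ≠ [])
    (hgen : Γ.Generic (b₁ :: D)) (hb : ∀ g ∈ b₁ :: D, Γ.Behind n τ₁ g)
    (hb' : ∀ g ∈ b₁ :: D, Γ.Behind n' τ₁' g) (ha : Γ.Ahead n (τ₂ - K) n')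
    (hL : τ₁ + K + 3 ≤ τ₂) (hsmall : LC1 Γ * exp (K + 2) * exp (-(τ₂ - τ₁)) ≤ 1 / 4) :
    Γ.d (Γ.root n (b₁ :: D)) (Γ.root n' (b₁ :: D)) ≤
      3 * (LC1 Γ * exp (K + 2) * exp (-(τ₂ - τ₁))) := by
  obtain ⟨r1, r2, r3, r4⟩ := root_line Γ hD hgen hb
  obtain ⟨r1', -, -, r4'⟩ := root_line Γ hD hgen hb'
  have hb1 := hb b₁ List.mem_cons_self
  have hb1' := hb' b₁ List.mem_cons_self
  obtain ⟨l, hl⟩ : ∃ l, l = Γ.line n b₁ := ⟨_, rfl⟩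
  obtain ⟨l', hl'⟩ : ∃ l', l' = Γ.line n' b₁ := ⟨_, rfl⟩
  rw [← hl] at r1 r2 r3 r4
  rw [← hl'] at r1' r4'
  obtain ⟨lo, hlo⟩ : ∃ lo, lo = lmax (D.map (Γ.prm l)) := ⟨_, rfl⟩
  obtain ⟨lo', hlo'⟩ : ∃ lo', lo' = lmax (D.map (Γ.prm l')) := ⟨_, rfl⟩
  rw [← hlo] at r1 r2 r3
  rw [← hlo'] at r1'
  rw [r1, r1']
  have p1 := behind_pos Γ hb1
  have p1' := behind_pos Γ hb1'
  have hn : ¬ Γ.SameEnd n b₁ := p1.ne'
  have hn' : ¬ Γ.SameEnd n' b₁ := p1'.ne'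
  have hbn : ¬ Γ.SameEnd b₁ n := fun h => hn (same_symm Γ h)
  have hbn' : ¬ Γ.SameEnd b₁ n' := fun h => hn' (same_symm Γ h)
  obtain ⟨p, hp⟩ : ∃ p, p = Γ.par b₁ n n' := ⟨_, rfl⟩
  obtain ⟨r, hr⟩ : ∃ r, r = Γ.ln l lo := ⟨_, rfl⟩
  -- the displacement
  have ha2 : Γ.Ahead l (τ₂ - K - 1) n' := by
    rw [hl]
    exact root_ahead Γ (by linarith) hb1 ha
  have ha3 : Γ.Ahead l (τ₂ - K - 1) n := by
    rw [ahead_iff, hl, br_line, br_self, mul_zero]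
    exact br_nonneg _ _ _
  obtain ⟨ε, hε⟩ : ∃ ε, ε = Γ.E (r⁻¹ * (p * r)) := ⟨_, rfl⟩
  have hE : ε ≤ LC1 Γ * exp (K + 2) * exp (-(τ₂ - τ₁)) := by
    rw [hε, hp, hr]
    refine (line_disp Γ le_rfl (by linarith) (by linarith) ha2 ha3
      (r3 b₁ List.mem_cons_self)).trans ?_
    rw [mul_assoc, ← exp_add]
    apply mul_le_mul_of_nonneg_left _ (LC1_nonneg Γ)
    exact exp_le_exp.2 (by linarith)
  have hdpr : Γ.d r (p * r) ≤ ε := by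
    rw [hε]
    exact d_le_E Γ p r
  have hε0 : 0 ≤ ε := (d_nonneg Γ _ _).trans hdpr
  -- the line `p l` has the ends of `l'`
  have s1 : Γ.SameEnd n' (p * n) := by
    rw [hp]
    exact par_map Γ hbn hbn'
  have s2 : Γ.SameEnd l' (p * l) := by
    have q1 : Γ.SameEnd l' n' := by
      rw [sameEnd_iff, hl', br_line, br_self]
    have q2 : Γ.SameEnd (p * n) (p * l) := by
      rw [same_mul, sameEnd_iff, br_comm, hl, br_line, br_self]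
    exact same_trans Γ q1 (same_trans Γ s1 q2)
  have s3 : Γ.SameEnd (l' * Γ.flip) (p * l * Γ.flip) := by
    have q1 : Γ.SameEnd (l' * Γ.flip) b₁ := by
      rw [hl']
      exact line_flip Γ hn'
    have q2 : Γ.SameEnd b₁ (p * b₁) := by
      rw [hp]
      exact par_fix Γ b₁ n n'
    have q3 : Γ.SameEnd (p * b₁) (p * l * Γ.flip) := by
      rw [mul_assoc, same_mul, hl]
      exact same_symm Γ (line_flip Γ hn)
    exact same_trans Γ q1 (same_trans Γ q2 q3)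
  obtain ⟨s, hs1, hs2⟩ := same_scale Γ s2
  obtain ⟨t, ht1, -⟩ := same_scale Γ s3
  have hst : t = -s := by
    have q1 := br_flip Γ (p * l)
    rw [ht1, br_comm, hs1, br_comm, br_flip, mul_one, ← exp_add] at q1
    have := exp_eq_one_iff _ |>.1 q1
    linarith
  -- the projections
  have k1 : ∀ x, br Γ (p * l) x = br Γ (p * n) x := by
    intro x
    rw [hl, ← line_mul, br_line]
  have k2 : ∀ x, br Γ (p * l * Γ.flip) x = br Γ (l * Γ.flip) x := by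
    intro x
    have f1 : br Γ (p * l * Γ.flip) x = br Γ (l * Γ.flip) (p⁻¹ * x) := by
      rw [← br_mul Γ p⁻¹]
      congr 1
      group
    rw [f1, hl, br_line_flip Γ hn, br_line_flip Γ hn]
    congr 1
    rw [← br_mul Γ p, mul_inv_cancel_left, hp]
    exact par_b Γ b₁ n n' x
  have nr : nx Γ r n = exp (-lo) := by
    have := nx_line Γ n b₁ r
    rw [← this, ← hl, hr, nx_ln]
  have k3 : ∀ b ∈ D, |br Γ (p * n) b / br Γ n b - 1| ≤ 2 * ε := by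
    intro b hbD
    have pb := behind_pos Γ (hb b (List.mem_cons_of_mem _ hbD))
    have f1 := Γ.E_pair (r⁻¹ * b) (r⁻¹ * (p * r)) (r⁻¹ * n)
    have e1 : (r⁻¹ * b)⁻¹ * (r⁻¹ * (p * r)) * (r⁻¹ * n) = b⁻¹ * (p * n) := by group
    have e2 : (r⁻¹ * b)⁻¹ * (r⁻¹ * n) = b⁻¹ * n := by group
    rw [e1, e2, ← hε] at f1
    have f2 : |br Γ (p * n) b - br Γ n b| ≤ ε * nx Γ r b * nx Γ r n := by
      rw [br_comm Γ (p * n), br_comm Γ n]
      exact f1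
    have f3 := nx_behind Γ (r3 b (List.mem_cons_of_mem _ hbD))
    rw [← hr, hl, br_line] at f3
    have f4 : ε * nx Γ r b * nx Γ r n ≤ 2 * ε * br Γ n b := by
      rw [nr]
      have e : exp lo * exp (-lo) = 1 := by rw [← exp_add, add_neg_cancel, exp_zero]
      calc ε * nx Γ r b * exp (-lo) ≤ ε * (2 * (exp lo * br Γ n b)) * exp (-lo) :=
            mul_le_mul_of_nonneg_right (mul_le_mul_of_nonneg_left f3 hε0) (exp_pos _).le
        _ = 2 * ε * br Γ n b * (exp lo * exp (-lo)) := by ring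
        _ = _ := by rw [e, mul_one]
    have e3 : br Γ (p * n) b / br Γ n b - 1 = (br Γ (p * n) b - br Γ n b) / br Γ n b := by
      field_simp
    rw [e3, abs_div, abs_of_pos pb, div_le_iff₀ pb]
    exact f2.trans f4
  have k4 : ∀ b ∈ D, |Γ.prm l' b - Γ.prm l b - s| ≤ 2 * ε := by
    intro b hbD
    obtain ⟨u1, u2⟩ := r4 b hbD
    obtain ⟨u1', u2'⟩ := r4' b hbD
    have pb := behind_pos Γ (hb b (List.mem_cons_of_mem _ hbD))
    have pb' : 0 < br Γ (p * n) b := by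
      rw [← k1, br_comm, hs1, br_comm]
      exact mul_pos (exp_pos _) u1'
    have v1 : br Γ l' b = exp (-s) * br Γ (p * n) b := by
      rw [← k1, br_comm Γ (p * l), hs1, br_comm Γ b, ← mul_assoc, ← exp_add, neg_add_cancel,
        exp_zero, one_mul]
    have v2 : br Γ (l' * Γ.flip) b = exp s * br Γ (l * Γ.flip) b := by
      rw [← k2, br_comm Γ (p * l * Γ.flip), ht1, hst, br_comm Γ b, ← mul_assoc, ← exp_add,
        add_neg_cancel, exp_zero, one_mul]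
    have v3 : br Γ l b = br Γ n b := by rw [hl, br_line]
    have w1 : 2 * Γ.prm l' b = s + log (br Γ (l * Γ.flip) b) - (-s + log (br Γ (p * n) b)) := by
      have : 2 * Γ.prm l' b = log (br Γ (l' * Γ.flip) b / br Γ l' b) := by
        unfold R1.prm
        exact mul_div_cancel₀ _ (two_ne_zero)
      rw [this, v1, v2, log_div (mul_pos (exp_pos _) u2).ne' (mul_pos (exp_pos _) pb').ne',
        log_mul (exp_pos _).ne' u2.ne', log_mul (exp_pos _).ne' pb'.ne', log_exp, log_exp]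
    have w2 : 2 * Γ.prm l b = log (br Γ (l * Γ.flip) b) - log (br Γ n b) := by
      have : 2 * Γ.prm l b = log (br Γ (l * Γ.flip) b / br Γ l b) := by
        unfold R1.prm
        exact mul_div_cancel₀ _ (two_ne_zero)
      rw [this, v3, log_div u2.ne' pb.ne']
    have w3 := abs_log_le (k3 b hbD) (by linarith)
    rw [log_div pb'.ne' pb.ne'] at w3
    have w4 := abs_le.1 w3
    rw [abs_le]
    constructor <;> linarith
  have k5 := lmax_lip hD (Γ.prm l') (Γ.prm l) k4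
  rw [← hlo, ← hlo'] at k5
  -- the distance along the line
  have e1 : p * Γ.ln l lo = Γ.ln (p * l) lo := by
    unfold R1.ln
    rw [mul_assoc]
  have m1 : Γ.SameEnd (Γ.ln l' lo') (Γ.ln (p * l) lo) := by
    rw [sameEnd_iff, br_ln, br_comm, br_ln, br_comm]
    have : br Γ l' (p * l) = 0 := s2
    rw [this, mul_zero, mul_zero]
  have m2 : Γ.SameEnd (Γ.ln l' lo' * Γ.flip) (Γ.ln (p * l) lo * Γ.flip) := by
    rw [sameEnd_iff, br_ln_flip, br_comm, br_ln_flip, br_comm]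
    have : br Γ (l' * Γ.flip) (p * l * Γ.flip) = 0 := s3
    rw [this, mul_zero, mul_zero]
  have m3 := d_same_line Γ m1 m2
  have m4 : nx Γ (Γ.ln l' lo') (Γ.ln (p * l) lo) = exp (lo + s - lo') := by
    have : nx Γ (Γ.ln l' lo') (Γ.ln (p * l) lo) = exp lo * nx Γ (Γ.ln l' lo') (p * l) := by
      unfold R1.ln
      exact nx_dg Γ _ _ _
    rw [this, hs2, nx_ln, ← exp_add, ← exp_add]
    congr 1
    ring
  rw [m4, log_exp] at m3
  have m5 : |lo + s - lo'| ≤ 2 * ε := by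
    have e : lo + s - lo' = -(lo' - lo - s) := by ring
    rw [e, abs_neg]
    exact k5
  have m6 := d_tri Γ (Γ.ln l lo) (p * Γ.ln l lo) (Γ.ln l' lo')
  rw [e1] at m6
  rw [d_comm Γ (Γ.ln (p * l) lo)] at m6
  rw [hr, e1] at hdpr
  linarith

end Pool.Agent.H99.BR
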