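import Pool.Agent.H99.BR.Bas

/-!
# Project BR, block GEO-N: the displacement lemma
-/

set_option autoImplicit false

open Real

namespace Pool.Agent.H99.BR

open Pool.Agent.Helper11.BR

variable {G : Type} [Group G] [TopologicalSpace G] (Γ : R1 G)

theorem rho_nonneg (g : G) : 0 ≤ Γ.rho g := by
  have h := d_nonneg Γ 1 g
  unfold R1.d at h
  rwa [inv_one, one_mul] at h

/-- the constant of the displacement lemma -/
noncomputable def DC (c M : ℝ) : ℝ := Γ.cE * (16 / c) * √(4 / c + M ^ 2 / c ^ 2)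

theorem DC_nonneg {c : ℝ} (hc : 0 < c) (M : ℝ) : 0 ≤ DC Γ c M := by
  have := Γ.one_le_cE
  unfold DC
  have h : 0 ≤ Γ.cE := by linarith
  positivity

theorem disp_lemma {c M : ℝ} (hc : 0 < c) {r a a' b : G} {ε : ℝ} (hε : 0 ≤ ε)
    (hεM : ε ≤ M) (h1 : c * (nx Γ r a * nx Γ r b) ≤ br Γ a b)
    (h2 : c * (nx Γ r a' * nx Γ r b) ≤ br Γ a' b)
    (h3 : br Γ a a' ≤ ε ^ 2 * (nx Γ r a * nx Γ r a')) :
    Γ.E (r⁻¹ * (Γ.par b a' a * r)) ≤ DC Γ c M * ε := by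
  have pa := nx_pos Γ r a
  have pa' := nx_pos Γ r a'
  have pb := nx_pos Γ r b
  have hab : 0 < br Γ a b := lt_of_lt_of_le (by positivity) h1
  have hab' : 0 < br Γ a' b := lt_of_lt_of_le (by positivity) h2
  have hba : 0 < br Γ b a := by rwa [br_comm]
  have hba' : 0 < br Γ b a' := by rwa [br_comm]
  have hn : ¬ Γ.SameEnd b a := hba.ne'
  have hn' : ¬ Γ.SameEnd b a' := hba'.ne'
  obtain ⟨s, hs⟩ : ∃ s, s = log (nx Γ r a / (br Γ b a * nx Γ r b)) / 2 := ⟨_, rfl⟩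
  have hs2 : exp (2 * s) = nx Γ r a / (br Γ b a * nx Γ r b) := by
    rw [hs, mul_div_cancel₀ _ (two_ne_zero), exp_log (by positivity)]
  have hs2' : exp (-(2 * s)) = br Γ b a * nx Γ r b / nx Γ r a := by
    rw [exp_neg, hs2, inv_div]
  obtain ⟨l, hl⟩ : ∃ l, l = Γ.line b a := ⟨_, rfl⟩
  obtain ⟨l', hl'⟩ : ∃ l', l' = Γ.line b a' := ⟨_, rfl⟩
  obtain ⟨y, hy⟩ : ∃ y, y = Γ.ln l s := ⟨_, rfl⟩
  -- the distance of `r` and `y`
  have y1 : nx Γ r y = exp s * nx Γ r b := by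
    rw [hy]
    unfold R1.ln
    rw [nx_dg, hl, nx_line]
  have y2 : nx Γ r (y * Γ.flip) = exp (-s) * (nx Γ r a / br Γ b a) := by
    have e := (line_scale Γ hn).2 r
    rw [← hl] at e
    rw [hy, ln_flip_eq, nx_dg, e]
    field_simp
  have q1 : nx Γ r y ≤ √(1 / c) := by
    apply le_sqrt_of_sq_le
    rw [y1, mul_pow, ← exp_nat_mul]
    push_cast
    rw [hs2, div_mul_eq_mul_div, div_le_div_iff₀ (by positivity) hc, one_mul]
    rw [br_comm] at h1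
    nlinarith
  have q2 : nx Γ r (y * Γ.flip) ≤ √(1 / c) := by
    apply le_sqrt_of_sq_le
    rw [y2, mul_pow, ← exp_nat_mul]
    push_cast
    have e : (2 : ℝ) * -s = -(2 * s) := by ring
    rw [e, hs2']
    have e2 : br Γ b a * nx Γ r b / nx Γ r a * (nx Γ r a / br Γ b a) ^ 2 =
        nx Γ r a * nx Γ r b / br Γ b a := by
      field_simp
    rw [e2, div_le_div_iff₀ hba hc, one_mul]
    rw [br_comm] at h1
    linarith
  have hd1 : exp (Γ.d r y) ≤ 4 * √(1 / c) := by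
    have := exp_d_le_nx Γ r y
    linarith
  have hd2 : exp (2 * Γ.d y r) ≤ 16 / c := by
    have e : exp (2 * Γ.d y r) = exp (Γ.d r y) ^ 2 := by
      rw [← exp_nat_mul, d_comm]
      push_cast
      rfl
    rw [e]
    have h := pow_le_pow_left₀ (exp_pos _).le hd1 2
    rw [mul_pow, sq_sqrt (by positivity)] at h
    calc _ ≤ _ := h
      _ = _ := by ring
  -- the unipotent element
  obtain ⟨w, hw⟩ : ∃ w, w = y⁻¹ * (Γ.par b a' a * y) := ⟨_, rfl⟩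
  have hwU : w ∈ Γ.U := by
    have hm : (Γ.nu (b⁻¹ * a'))⁻¹ * Γ.nu (b⁻¹ * a) ∈ Γ.U :=
      Γ.U.mul_mem (Γ.U.inv_mem (Γ.nu_mem _)) (Γ.nu_mem _)
    have h := Γ.U_dg _ hm s
    rw [hw, hy, hl]
    unfold R1.par R1.line R1.ln
    rw [dg_neg] at h
    convert h using 1
    group
  have hz : Γ.gam (Γ.flip⁻¹ * w * Γ.flip) = nx Γ r b * br Γ a a' / (nx Γ r a * br Γ b a') := by
    have e1 : Γ.flip⁻¹ * w * Γ.flip = (Γ.ln l' s * Γ.flip)⁻¹ * (Γ.ln l s * Γ.flip) := by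
      rw [hw, hy, hl, hl']
      unfold R1.par R1.line R1.ln
      group
    have e2 : Γ.gam (Γ.flip⁻¹ * w * Γ.flip) =
        br Γ (Γ.ln l' s * Γ.flip) (Γ.ln l s * Γ.flip) := by
      rw [e1]
      rfl
    rw [e2, ln_flip_eq, ln_flip_eq, br_dg, br_dg']
    have f1 := (line_scale Γ hn).1 (l' * Γ.flip)
    have f2 := (line_scale Γ hn').1 a
    rw [← hl] at f1
    rw [← hl'] at f2
    have f3 : br Γ (l' * Γ.flip) (l * Γ.flip) = br Γ a a' / (br Γ b a * br Γ b a') := by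
      rw [br_comm Γ a] at f2 ⊢
      rw [br_comm Γ a'] at f2 ⊢
      rw [f2, br_comm Γ a, f1]
      field_simp
    rw [f3]
    have f4 : exp (-s) * (exp (-s) * (br Γ a a' / (br Γ b a * br Γ b a'))) =
        exp (-(2 * s)) * (br Γ a a' / (br Γ b a * br Γ b a')) := by
      rw [← mul_assoc, ← exp_add]
      congr 2
      ring
    rw [f4, hs2']
    field_simp
  have hz0 : 0 ≤ Γ.gam (Γ.flip⁻¹ * w * Γ.flip) := Γ.gam_nonneg _
  have hz1 : Γ.gam (Γ.flip⁻¹ * w * Γ.flip) ≤ ε ^ 2 / c := by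
    rw [hz, div_le_div_iff₀ (by positivity) hc]
    rw [br_comm Γ a' b] at h2
    have g1 := mul_le_mul_of_nonneg_left h3 (mul_nonneg pb.le hc.le)
    have g2 := mul_le_mul_of_nonneg_left h2 (mul_nonneg (sq_nonneg ε) pa.le)
    nlinarith
  have hE := Γ.E_sq w hwU
  have hE2 : Γ.E w ≤ ε * √(4 / c + M ^ 2 / c ^ 2) := by
    have g1 : Γ.E w ^ 2 ≤ ε ^ 2 * (4 / c + M ^ 2 / c ^ 2) := by
      have g2 : Γ.gam (Γ.flip⁻¹ * w * Γ.flip) ^ 2 ≤ (ε ^ 2 / c) ^ 2 :=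
        pow_le_pow_left₀ hz0 hz1 2
      have g3 : (ε ^ 2 / c) ^ 2 ≤ ε ^ 2 * (M ^ 2 / c ^ 2) := by
        rw [div_pow, ← mul_div_assoc]
        apply div_le_div_of_nonneg_right _ (by positivity)
        have : ε ^ 2 ≤ M ^ 2 := pow_le_pow_left₀ hε hεM 2
        nlinarith [sq_nonneg ε]
      have g4 : 4 * (ε ^ 2 / c) = ε ^ 2 * (4 / c) := by ring
      rw [mul_add]
      linarith
    have g5 := le_sqrt_of_sq_le g1
    rwa [sqrt_mul (sq_nonneg ε), sqrt_sq hε] at g5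
  -- conjugation
  have hconj := Γ.E_conj (y⁻¹ * r) w
  have e3 : (y⁻¹ * r)⁻¹ * w * (y⁻¹ * r) = r⁻¹ * (Γ.par b a' a * r) := by
    rw [hw]
    group
  rw [e3] at hconj
  have e4 : Γ.rho (y⁻¹ * r) = Γ.d y r := rfl
  rw [e4] at hconj
  have hcE : 0 ≤ Γ.cE := by linarith [Γ.one_le_cE]
  have h5 : Γ.cE * exp (2 * Γ.d y r) * Γ.E w ≤
      Γ.cE * exp (2 * Γ.d y r) * (ε * √(4 / c + M ^ 2 / c ^ 2)) :=
    mul_le_mul_of_nonneg_left hE2 (by positivity)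
  have h6 : Γ.cE * exp (2 * Γ.d y r) * (ε * √(4 / c + M ^ 2 / c ^ 2)) ≤
      Γ.cE * (16 / c) * (ε * √(4 / c + M ^ 2 / c ^ 2)) :=
    mul_le_mul_of_nonneg_right (mul_le_mul_of_nonneg_left hd2 hcE) (by positivity)
  unfold DC
  calc _ ≤ _ := hconj
    _ ≤ _ := h5
    _ ≤ _ := h6
    _ = _ := by ring

/-! ### norms at the points of a line -/

theorem le_nx_ahead (n a : G) (τ : ℝ) :
    exp (-τ) * br Γ (n * Γ.flip) a ≤ nx Γ (Γ.ln n τ) a := by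
  rw [← br_ln_flip]
  exact br_flip_le Γ _ _

theorem le_nx_behind (n b : G) (τ : ℝ) : exp τ * br Γ n b ≤ nx Γ (Γ.ln n τ) b := by
  rw [← br_ln]
  exact br_le Γ _ _

theorem nx_ahead {n a : G} {τ : ℝ} (h : Γ.Ahead n τ a) :
    nx Γ (Γ.ln n τ) a ≤ 2 * (exp (-τ) * br Γ (n * Γ.flip) a) := by
  have h1 := nx_le Γ (Γ.ln n τ) a
  rw [br_ln, br_ln_flip] at h1
  rw [ahead_iff] at h
  have h2 := mul_le_mul_of_nonneg_left h (exp_pos (-τ)).le
  rw [← mul_assoc, ← exp_add, show -τ + 2 * τ = τ by ring] at h2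
  linarith

theorem nx_behind {n b : G} {τ : ℝ} (h : Γ.Behind n τ b) :
    nx Γ (Γ.ln n τ) b ≤ 2 * (exp τ * br Γ n b) := by
  have h1 := nx_le Γ (Γ.ln n τ) b
  rw [br_ln, br_ln_flip] at h1
  rw [behind_iff] at h
  have h2 := mul_le_mul_of_nonneg_left h (exp_pos (-τ)).le
  rw [← mul_assoc, ← exp_add, show -τ + 2 * τ = τ by ring] at h2
  linarith

theorem br_ahead {n a a' : G} {τ : ℝ} (h : Γ.Ahead n τ a) (h' : Γ.Ahead n τ a') :
    br Γ a a' ≤ 4 * exp (-(2 * τ)) * (br Γ (n * Γ.flip) a * br Γ (n * Γ.flip) a') := by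
  have h1 := br_le_nx Γ (Γ.ln n τ) a a'
  have h2 := mul_le_mul (nx_ahead Γ h) (nx_ahead Γ h') (nx_pos Γ _ _).le
    (by have := br_nonneg Γ (n * Γ.flip) a; positivity)
  have e : exp (-(2 * τ)) = exp (-τ) * exp (-τ) := by rw [← exp_add]; congr 1; ring
  rw [e]
  calc _ ≤ _ := h1
    _ ≤ _ := h2
    _ = _ := by ring

theorem br_behind {n b b' : G} {τ : ℝ} (h : Γ.Behind n τ b) (h' : Γ.Behind n τ b') :
    br Γ b b' ≤ 4 * exp (2 * τ) * (br Γ n b * br Γ n b') := by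
  have h1 := br_le_nx Γ (Γ.ln n τ) b b'
  have h2 := mul_le_mul (nx_behind Γ h) (nx_behind Γ h') (nx_pos Γ _ _).le
    (by have := br_nonneg Γ n b; positivity)
  have e : exp (2 * τ) = exp τ * exp τ := by rw [← exp_add]; congr 1; ring
  rw [e]
  calc _ ≤ _ := h1
    _ ≤ _ := h2
    _ = _ := by ring

theorem br_across {n a b : G} {τ : ℝ} (ha : Γ.Ahead n τ a) (hb : Γ.Behind n τ b) :
    br Γ a b ≤ 4 * (br Γ (n * Γ.flip) a * br Γ n b) := by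
  have h1 := br_le_nx Γ (Γ.ln n τ) a b
  have h2 := mul_le_mul (nx_ahead Γ ha) (nx_behind Γ hb) (nx_pos Γ _ _).le
    (by have := br_nonneg Γ (n * Γ.flip) a; positivity)
  have e : exp (-τ) * exp τ = 1 := by rw [← exp_add, neg_add_cancel, exp_zero]
  calc _ ≤ _ := h1
    _ ≤ _ := h2
    _ = 4 * (exp (-τ) * exp τ) * (br Γ (n * Γ.flip) a * br Γ n b) := by ring
    _ = _ := by rw [e]; ring

theorem exp_neg_one_le : exp (-1) ≤ (1 / 2 : ℝ) := by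
  have h := add_one_le_exp (1 : ℝ)
  rw [exp_neg, inv_eq_one_div]
  apply one_div_le_one_div_of_le (by norm_num)
  linarith

/-- the angle at a point between the ends -/
theorem angle {n a b : G} {τ₁ τ₂ : ℝ} (hτ : τ₁ + 1 ≤ τ₂) (ha : Γ.Ahead n τ₂ a)
    (hb : Γ.Behind n τ₁ b) : br Γ (n * Γ.flip) a * br Γ n b ≤ 4 * br Γ a b := by
  have h := ptolemy Γ n b (n * Γ.flip) a
  rw [br_flip, one_mul] at h
  rw [ahead_iff] at ha
  rw [behind_iff] at hb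
  have pn := br_nonneg Γ n b
  have pa := br_nonneg Γ (n * Γ.flip) a
  have pna := br_nonneg Γ n a
  obtain ⟨q, hq⟩ : ∃ q, q = exp (-(τ₂ - τ₁)) := ⟨_, rfl⟩
  have hq0 : 0 ≤ q := by rw [hq]; positivity
  have hq1 : q ≤ 1 / 2 := by
    rw [hq]
    exact (exp_le_exp.2 (by linarith)).trans exp_neg_one_le
  have e1 : exp (-(2 * τ₂)) * exp (2 * τ₂) = 1 := by
    rw [← exp_add, neg_add_cancel, exp_zero]
  have e2 : exp (-(2 * τ₂)) * exp (2 * τ₁) = q ^ 2 := by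
    rw [hq, ← exp_add, ← exp_nat_mul]
    congr 1
    push_cast
    ring
  have a1 : br Γ n a ≤ exp (-(2 * τ₂)) * br Γ (n * Γ.flip) a := by
    have := mul_le_mul_of_nonneg_left ha (exp_pos (-(2 * τ₂))).le
    rwa [← mul_assoc, e1, one_mul] at this
  have h2 : br Γ n a * br Γ b (n * Γ.flip) ≤
      q ^ 2 * (br Γ n b * br Γ (n * Γ.flip) a) := by
    rw [br_comm Γ b]
    have h3 := mul_le_mul a1 hb (br_nonneg _ _ _) (by positivity)
    calc _ ≤ _ := h3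
      _ = exp (-(2 * τ₂)) * exp (2 * τ₁) * (br Γ n b * br Γ (n * Γ.flip) a) := by ring
      _ = _ := by rw [e2]
  have h4 : √(br Γ n a * br Γ b (n * Γ.flip)) ≤ q * √(br Γ n b * br Γ (n * Γ.flip) a) := by
    have := sqrt_le_sqrt h2
    rwa [sqrt_mul (sq_nonneg q), sqrt_sq hq0] at this
  have hS := sqrt_nonneg (br Γ n b * br Γ (n * Γ.flip) a)
  have h5 : √(br Γ n b * br Γ (n * Γ.flip) a) ≤ 2 * √(br Γ b a) := by
    have := mul_le_mul_of_nonneg_right hq1 hS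
    linarith
  have h6 := pow_le_pow_left₀ hS h5 2
  rw [sq_sqrt (mul_nonneg pn pa), mul_pow, sq_sqrt (br_nonneg _ _ _), br_comm Γ b a] at h6
  linarith

/-- the constant of the line lemma -/
noncomputable def LC1 : ℝ := 2 * DC Γ (1 / 16) 2

theorem LC1_nonneg : 0 ≤ LC1 Γ := by
  have := DC_nonneg Γ (c := 1 / 16) (by norm_num) 2
  unfold LC1
  linarith

private theorem angle_nx {n a b : G} {τ₁ τ τ₂ : ℝ} (h1 : τ₁ ≤ τ) (h2 : τ ≤ τ₂)
    (h3 : τ₁ + 1 ≤ τ₂) (ha : Γ.Ahead n τ₂ a) (hb : Γ.Behind n τ₁ b) :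
    1 / 16 * (nx Γ (Γ.ln n τ) a * nx Γ (Γ.ln n τ) b) ≤ br Γ a b := by
  have h4 := angle Γ h3 ha hb
  have h5 := mul_le_mul (nx_ahead Γ (ahead_mono Γ h2 ha)) (nx_behind Γ (behind_mono Γ h1 hb))
    (nx_pos Γ _ _).le (by have := br_nonneg Γ (n * Γ.flip) a; positivity)
  have e : exp (-τ) * exp τ = 1 := by rw [← exp_add, neg_add_cancel, exp_zero]
  have h6 : nx Γ (Γ.ln n τ) a * nx Γ (Γ.ln n τ) b ≤
      4 * (br Γ (n * Γ.flip) a * br Γ n b) := by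
    calc _ ≤ _ := h5
      _ = 4 * (exp (-τ) * exp τ) * (br Γ (n * Γ.flip) a * br Γ n b) := by ring
      _ = _ := by rw [e]; ring
  linarith

/-- the line lemma -/
theorem line_disp {n a a' b : G} {τ₁ τ τ₂ : ℝ} (h1 : τ₁ ≤ τ) (h2 : τ ≤ τ₂) (h3 : τ₁ + 1 ≤ τ₂)
    (ha : Γ.Ahead n τ₂ a) (ha' : Γ.Ahead n τ₂ a') (hb : Γ.Behind n τ₁ b) :
    Γ.E ((Γ.ln n τ)⁻¹ * (Γ.par b a' a * Γ.ln n τ)) ≤ LC1 Γ * exp (-(τ₂ - τ)) := by
  have h4 : br Γ a a' ≤ (2 * exp (-(τ₂ - τ))) ^ 2 *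
      (nx Γ (Γ.ln n τ) a * nx Γ (Γ.ln n τ) a') := by
    have g1 := br_ahead Γ ha ha'
    have g2 := mul_le_mul (le_nx_ahead Γ n a τ) (le_nx_ahead Γ n a' τ)
      (mul_nonneg (exp_pos _).le (br_nonneg _ _ _)) (nx_pos Γ _ _).le
    have g3 := mul_le_mul_of_nonneg_left g2 (by positivity : 0 ≤ (2 * exp (-(τ₂ - τ))) ^ 2)
    refine le_trans (le_of_eq_of_le ?_ (le_refl _)) g3 |> fun h => g1.trans h
    have e : (2 * exp (-(τ₂ - τ))) ^ 2 * (exp (-τ) * exp (-τ)) = 4 * exp (-(2 * τ₂)) := by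
      rw [mul_pow, ← exp_nat_mul, mul_assoc, ← exp_add, ← exp_add]
      push_cast
      norm_num
      ring
    rw [← e]
    ring
  have h5 : 2 * exp (-(τ₂ - τ)) ≤ 2 := by
    have : exp (-(τ₂ - τ)) ≤ 1 := exp_le_one_iff.2 (by linarith)
    linarith
  have h6 := disp_lemma Γ (c := 1 / 16) (M := 2) (by norm_num) (by positivity) h5
    (angle_nx Γ h1 h2 h3 ha hb) (angle_nx Γ h1 h2 h3 ha' hb) h4
  unfold LC1
  linarith

/-- the mirror image of the line lemma -/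
theorem line_disp' {n a b b' : G} {τ₁ τ τ₂ : ℝ} (h1 : τ₁ ≤ τ) (h2 : τ ≤ τ₂) (h3 : τ₁ + 1 ≤ τ₂)
    (ha : Γ.Ahead n τ₂ a) (hb : Γ.Behind n τ₁ b) (hb' : Γ.Behind n τ₁ b') :
    Γ.E ((Γ.ln n τ)⁻¹ * (Γ.par a b' b * Γ.ln n τ)) ≤ LC1 Γ * exp (-(τ - τ₁)) := by
  have h4 : br Γ b b' ≤ (2 * exp (-(τ - τ₁))) ^ 2 *
      (nx Γ (Γ.ln n τ) b * nx Γ (Γ.ln n τ) b') := by
    have g1 := br_behind Γ hb hb'
    have g2 := mul_le_mul (le_nx_behind Γ n b τ) (le_nx_behind Γ n b' τ)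
      (mul_nonneg (exp_pos _).le (br_nonneg _ _ _)) (nx_pos Γ _ _).le
    have g3 := mul_le_mul_of_nonneg_left g2 (by positivity : 0 ≤ (2 * exp (-(τ - τ₁))) ^ 2)
    refine le_trans (le_of_eq_of_le ?_ (le_refl _)) g3 |> fun h => g1.trans h
    have e : (2 * exp (-(τ - τ₁))) ^ 2 * (exp τ * exp τ) = 4 * exp (2 * τ₁) := by
      rw [mul_pow, ← exp_nat_mul, mul_assoc, ← exp_add, ← exp_add]
      push_cast
      norm_num
      ring
    rw [← e]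
    ring
  have h5 : 2 * exp (-(τ - τ₁)) ≤ 2 := by
    have : exp (-(τ - τ₁)) ≤ 1 := exp_le_one_iff.2 (by linarith)
    linarith
  have k1 : 1 / 16 * (nx Γ (Γ.ln n τ) b * nx Γ (Γ.ln n τ) a) ≤ br Γ b a := by
    rw [br_comm, mul_comm (nx Γ (Γ.ln n τ) b)]
    exact angle_nx Γ h1 h2 h3 ha hb
  have k2 : 1 / 16 * (nx Γ (Γ.ln n τ) b' * nx Γ (Γ.ln n τ) a) ≤ br Γ b' a := by
    rw [br_comm, mul_comm (nx Γ (Γ.ln n τ) b')]
    exact angle_nx Γ h1 h2 h3 ha hb'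
  have h6 := disp_lemma Γ (c := 1 / 16) (M := 2) (by norm_num) (by positivity) h5 k1 k2 h4
  unfold LC1
  linarith

/-- the displacement is bounded by `E` -/
theorem d_le_E (p x : G) : Γ.d x (p * x) ≤ Γ.E (x⁻¹ * (p * x)) := Γ.rho_le_E _

end Pool.Agent.H99.BR
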