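import Pool.Agent.H99.BR.Cls

/-!
# Project BR, block GEO-N: the facts used by the block NECK
-/

set_option autoImplicit false

open Real

namespace Pool.Agent.H99.BR

open Pool.Agent.Helper11.BR

variable {G : Type} [Group G] [TopologicalSpace G]

private theorem one_exp {x : ℝ} (hx : 0 ≤ x) : exp (-x) ≤ 1 := exp_le_one_iff.2 (by linarith)

private theorem NG_ln (Γ : R1 G) : ∃ K L : ℝ, ∀ n τ₁ τ₂ a a' b, τ₁ + L ≤ τ₂ →
    Γ.Ahead n τ₂ a → Γ.Ahead n τ₂ a' → Γ.Behind n τ₁ b →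
    Γ.d (Γ.ln n τ₁) (Γ.par b a' a * Γ.ln n τ₁) ≤ K ∧
      Γ.d (Γ.ln n τ₂) (Γ.par b a' a * Γ.ln n τ₂) ≤ K := by
  refine ⟨LC1 Γ, 1, fun n τ₁ τ₂ a a' b h ha ha' hb => ?_⟩
  have h0 := LC1_nonneg Γ
  constructor
  · refine (d_le_E Γ _ _).trans ((line_disp Γ le_rfl (by linarith) h ha ha' hb).trans ?_)
    exact mul_le_of_le_one_right h0 (one_exp (by linarith))
  · refine (d_le_E Γ _ _).trans ((line_disp Γ (by linarith) le_rfl h ha ha' hb).trans ?_)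
    exact mul_le_of_le_one_right h0 (one_exp (by linarith))

private theorem NG_ln' (Γ : R1 G) : ∃ K L : ℝ, ∀ n τ₁ τ₂ a b b', τ₁ + L ≤ τ₂ →
    Γ.Ahead n τ₂ a → Γ.Behind n τ₁ b → Γ.Behind n τ₁ b' →
    Γ.d (Γ.ln n τ₁) (Γ.par a b' b * Γ.ln n τ₁) ≤ K ∧
      Γ.d (Γ.ln n τ₂) (Γ.par a b' b * Γ.ln n τ₂) ≤ K := by
  refine ⟨LC1 Γ, 1, fun n τ₁ τ₂ a b b' h ha hb hb' => ?_⟩
  have h0 := LC1_nonneg Γ
  constructor
  · refine (d_le_E Γ _ _).trans ((line_disp' Γ le_rfl (by linarith) h ha hb hb').trans ?_)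
    exact mul_le_of_le_one_right h0 (one_exp (by linarith))
  · refine (d_le_E Γ _ _).trans ((line_disp' Γ (by linarith) le_rfl h ha hb hb').trans ?_)
    exact mul_le_of_le_one_right h0 (one_exp (by linarith))

private theorem NG_root (Γ : R1 G) (C₀ : ℝ) : ∃ K L : ℝ, ∀ n n' τ₁ τ₂ τ₁' τ₂' (E : List G),
    τ₁ + L ≤ τ₂ → τ₁' ≤ τ₂' →
    Γ.d (Γ.ln n τ₁) (Γ.ln n' τ₁') ≤ C₀ → Γ.d (Γ.ln n τ₂) (Γ.ln n' τ₂') ≤ C₀ → Γ.Generic E →
    2 ≤ E.length → (∀ g ∈ E, Γ.Behind n τ₁ g) → (∀ g ∈ E, Γ.Behind n' τ₁' g) →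
    Γ.d (Γ.root n E) (Γ.root n' E) ≤ K * exp (-(τ₂ - τ₁)) := by
  have h0 := LC1_nonneg Γ
  refine ⟨3 * (LC1 Γ * exp (2 * C₀ + 1 + 2)), 2 * C₀ + 1 + 3 + log (4 * (LC1 Γ + 1)),
    fun n n' τ₁ τ₂ τ₁' τ₂' E h h' h1 h2 hgen hlen hE hE' => ?_⟩
  have hC : 0 ≤ C₀ := (d_nonneg Γ _ _).trans h1
  have hlog : 0 ≤ log (4 * (LC1 Γ + 1)) := log_nonneg (by linarith)
  rcases E with _ | ⟨b₁, D⟩
  · simp at hlen
  have hD : D ≠ [] := by
    rintro rfl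
    simp at hlen
  have ha := close_ahead Γ (by linarith) h' h1 h2
  have hs : LC1 Γ * exp (2 * C₀ + 1 + 2) * exp (-(τ₂ - τ₁)) ≤ 1 / 4 := by
    rw [mul_assoc, ← exp_add]
    have e1 : exp (2 * C₀ + 1 + 2 + -(τ₂ - τ₁)) ≤ exp (-log (4 * (LC1 Γ + 1))) :=
      exp_le_exp.2 (by linarith)
    rw [exp_neg, exp_log (by linarith)] at e1
    have e2 := mul_le_mul_of_nonneg_left e1 h0
    refine e2.trans ?_
    rw [← div_eq_mul_inv, div_le_div_iff₀ (by linarith) (by norm_num)]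
    linarith
  have := root_near Γ (K := 2 * C₀ + 1) hD hgen hE hE' ha (by linarith) hs
  calc _ ≤ _ := this
    _ = _ := by ring

theorem neckGeo (Γ : R1 G) : NeckGeo Γ where
  ln_dist := ln_dist Γ
  ln_flip := ln_flip Γ
  same_refl := same_refl Γ
  same_symm := fun _ _ h => same_symm Γ h
  same_trans := fun _ _ _ h h' => same_trans Γ h h'
  same_mul := same_mul Γ
  ahead_mul := ahead_mul Γ
  behind_mul := behind_mul Γ
  ahead_mono := fun _ _ _ _ hτ h => ahead_mono Γ hτ h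
  behind_mono := fun _ _ _ _ hτ h => behind_mono Γ hτ h
  ahead_flip := ahead_flip Γ
  behind_flip := behind_flip Γ
  ahead_self := ahead_self Γ
  behind_opp := behind_opp Γ
  not_same := fun _ _ _ _ _ hτ hb ha => not_same Γ hτ hb ha
  root_mul := root_mul Γ
  mid_mul := mid_mul Γ
  par_fix := par_fix Γ
  par_map := fun _ _ _ h' h => par_map Γ h' h
  disp_ln := NG_ln Γ
  disp_ln' := NG_ln' Γ
  disp_root := ⟨LC1 Γ * exp 2, 3, fun _ _ _ _ _ _ _ h ha ha' hb hE hgen hlen =>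
    (d_le_E Γ _ _).trans (root_E Γ h ha ha' hb hE hgen hlen)⟩
  disp_mid := ⟨LC1 Γ * exp 2, 5, fun _ _ _ _ _ _ _ _ h hgen hA0 hB0 hA hB ha ha' hb =>
    (d_le_E Γ _ _).trans (mid_E Γ h hA0 hB0 hgen hA hB ha ha' hb)⟩
  disp_mid' := ⟨LC1 Γ * exp 2, 5, fun _ _ _ _ _ _ _ _ h hgen hA0 hB0 hA hB ha hb hb' =>
    (d_le_E Γ _ _).trans (mid_E' Γ h hA0 hB0 hgen hA hB ha hb hb')⟩
  root_close := NG_root Γ
  close_ahead := fun C₀ => ⟨2 * C₀ + 1, fun _ _ _ _ _ _ h h' h1 h2 => close_ahead Γ h h' h1 h2⟩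
  close_behind := fun C₀ => ⟨2 * C₀ + 1, fun _ _ _ _ _ _ h h' h1 h2 =>
    close_behind Γ h h' h1 h2⟩

end Pool.Agent.H99.BR
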