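import Pool.Agent.H99.BR.Dsp
import Pool.Agent.H99.BC.Lmax

/-!
# Project BR, block GEO-N: roots and middles of necks
-/

set_option autoImplicit false

open Real

namespace Pool.Agent.H99.BR

open Pool.Agent.Helper11.BR
open Pool.Agent.Helper11.BC (lmax lmin)
open Pool.Agent.H99.BC (lmax_mem lmin_mem le_lmax lmin_le lmax_le le_lmin)

variable {G : Type} [Group G] [TopologicalSpace G] (Γ : R1 G)

theorem four_le_exp : (4 : ℝ) ≤ exp 2 := by
  have h := add_one_le_exp (1 : ℝ)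
  have e : exp (2 : ℝ) = exp 1 ^ 2 := by
    rw [← exp_nat_mul]
    norm_num
  rw [e]
  calc (4 : ℝ) = 2 ^ 2 := by norm_num
    _ ≤ exp 1 ^ 2 := pow_le_pow_left₀ (by norm_num) (by linarith) 2

theorem exp_neg_two_le : exp (-2) ≤ (1 / 4 : ℝ) := by
  rw [exp_neg, inv_eq_one_div]
  exact one_div_le_one_div_of_le (by norm_num) four_le_exp

theorem le_exp_eight : (256 : ℝ) ≤ exp 8 := by
  have e : exp (8 : ℝ) = exp 2 ^ 4 := by
    rw [← exp_nat_mul]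
    norm_num
  rw [e]
  calc (256 : ℝ) = 4 ^ 4 := by norm_num
    _ ≤ exp 2 ^ 4 := pow_le_pow_left₀ (by norm_num) four_le_exp 4

theorem lmax_lip {T : Type} {l : List T} (hl : l ≠ []) (f g : T → ℝ) {ε s : ℝ}
    (h : ∀ x ∈ l, |f x - g x - s| ≤ ε) : |lmax (l.map f) - lmax (l.map g) - s| ≤ ε := by
  have key : ∀ (f g : T → ℝ) (s : ℝ), (∀ x ∈ l, |f x - g x - s| ≤ ε) →
      lmax (l.map f) - lmax (l.map g) - s ≤ ε := by
    intro f g s h
    obtain ⟨x, hx, hfx⟩ := List.mem_map.1 (lmax_mem (l := l.map f) (by simpa using hl))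
    have h1 := (abs_le.1 (h x hx)).2
    have h2 : g x ≤ lmax (l.map g) := le_lmax (List.mem_map_of_mem hx)
    rw [← hfx]
    linarith
  rw [abs_le]
  constructor
  · have := key g f (-s) (fun x hx => by
      have e : g x - f x - -s = -(f x - g x - s) := by ring
      rw [e, abs_neg]
      exact h x hx)
    linarith
  · exact key f g s h

/-! ### the projection parameter -/

theorem exp_prm {n g : G} (h1 : 0 < br Γ n g) (h2 : 0 < br Γ (n * Γ.flip) g) :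
    exp (2 * Γ.prm n g) = br Γ (n * Γ.flip) g / br Γ n g := by
  unfold R1.prm
  rw [mul_div_cancel₀ _ (two_ne_zero)]
  exact exp_log (div_pos h2 h1)

theorem prm_ahead {n g : G} {τ : ℝ} (h1 : 0 < br Γ n g) (h2 : 0 < br Γ (n * Γ.flip) g)
    (h : τ ≤ Γ.prm n g) : Γ.Ahead n τ g := by
  rw [ahead_iff]
  have h3 := exp_prm Γ h1 h2
  have h4 : exp (2 * τ) ≤ br Γ (n * Γ.flip) g / br Γ n g := by
    rw [← h3]
    exact exp_le_exp.2 (by linarith)
  rwa [le_div_iff₀ h1] at h4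

theorem prm_behind {n g : G} {τ : ℝ} (h1 : 0 < br Γ n g) (h2 : 0 < br Γ (n * Γ.flip) g)
    (h : Γ.prm n g ≤ τ) : Γ.Behind n τ g := by
  rw [behind_iff]
  have h3 := exp_prm Γ h1 h2
  have h4 : br Γ (n * Γ.flip) g / br Γ n g ≤ exp (2 * τ) := by
    rw [← h3]
    exact exp_le_exp.2 (by linarith)
  rwa [div_le_iff₀ h1] at h4

theorem prm_mul (h n g : G) : Γ.prm (h * n) (h * g) = Γ.prm n g := by
  have e1 : (h * n * Γ.flip)⁻¹ * (h * g) = (n * Γ.flip)⁻¹ * g := by group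
  have e2 : (h * n)⁻¹ * (h * g) = n⁻¹ * g := by group
  unfold R1.prm
  rw [e1, e2]

theorem br_line_flip {a b : G} (h : ¬ Γ.SameEnd a b) (x : G) :
    br Γ (Γ.line a b * Γ.flip) x = br Γ b x / br Γ a b := by
  have hp := br_pos Γ h
  rw [br_comm Γ b x, (line_scale Γ h).1 x, mul_div_cancel_left₀ _ hp.ne', br_comm]

/-! ### the root -/

theorem root_line {n b₁ : G} {D : List G} {τ₁ : ℝ} (hD : D ≠ []) (hgen : Γ.Generic (b₁ :: D))
    (hb : ∀ g ∈ b₁ :: D, Γ.Behind n τ₁ g) :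
    Γ.root n (b₁ :: D) = Γ.ln (Γ.line n b₁) (lmax (D.map (Γ.prm (Γ.line n b₁)))) ∧
      lmax (D.map (Γ.prm (Γ.line n b₁))) ≤ τ₁ + 1 ∧
      (∀ g ∈ b₁ :: D, Γ.Behind (Γ.line n b₁) (lmax (D.map (Γ.prm (Γ.line n b₁)))) g) ∧
      (∀ g ∈ D, 0 < br Γ (Γ.line n b₁) g ∧ 0 < br Γ (Γ.line n b₁ * Γ.flip) g) := by
  have hb1 := hb b₁ List.mem_cons_self
  have p1 := behind_pos Γ hb1
  have hn : ¬ Γ.SameEnd n b₁ := p1.ne'
  have hpos : ∀ g ∈ D, 0 < br Γ (Γ.line n b₁) g ∧ 0 < br Γ (Γ.line n b₁ * Γ.flip) g := by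
    intro g hg
    refine ⟨?_, ?_⟩
    · rw [br_line]
      exact behind_pos Γ (hb g (List.mem_cons_of_mem _ hg))
    · rw [br_line_flip Γ hn]
      exact div_pos (br_pos Γ (List.rel_of_pairwise_cons hgen hg)) p1
  refine ⟨rfl, ?_, ?_, hpos⟩
  · apply lmax_le (by simpa using hD)
    intro x hx
    obtain ⟨g, hg, rfl⟩ := List.mem_map.1 hx
    obtain ⟨q1, q2⟩ := hpos g hg
    have h1 := exp_prm Γ q1 q2
    rw [br_line, br_line_flip Γ hn] at h1
    have h2 := br_behind Γ hb1 (hb g (List.mem_cons_of_mem _ hg))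
    rw [br_line] at q1
    have h3 : exp (2 * Γ.prm (Γ.line n b₁) g) ≤ exp (2 * (τ₁ + 1)) := by
      rw [h1, div_div, div_le_iff₀ (by positivity)]
      refine h2.trans ?_
      apply mul_le_mul_of_nonneg_right _ (by positivity)
      have e : exp (2 * (τ₁ + 1)) = exp 2 * exp (2 * τ₁) := by
        rw [← exp_add]
        congr 1
        ring
      rw [e]
      exact mul_le_mul_of_nonneg_right four_le_exp (exp_pos _).le
    have := exp_le_exp.1 h3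
    linarith
  · intro g hg
    rcases List.mem_cons.1 hg with rfl | hg
    · rw [behind_iff, br_line_flip Γ hn, br_self, zero_div]
      exact mul_nonneg (exp_pos _).le (br_nonneg _ _ _)
    · obtain ⟨q1, q2⟩ := hpos g hg
      exact prm_behind Γ q1 q2 (le_lmax (List.mem_map_of_mem hg))

theorem root_ahead {n b a : G} {τ₁ τ₂ : ℝ} (hτ : τ₁ + 1 ≤ τ₂) (hb : Γ.Behind n τ₁ b)
    (ha : Γ.Ahead n τ₂ a) : Γ.Ahead (Γ.line n b) (τ₂ - 1) a := by
  have p1 := behind_pos Γ hb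
  have hn : ¬ Γ.SameEnd n b := p1.ne'
  have h1 := angle Γ hτ ha hb
  rw [ahead_iff] at ha
  rw [ahead_iff, br_line, br_line_flip Γ hn, le_div_iff₀ p1]
  have e : exp (2 * (τ₂ - 1)) = exp (-2) * exp (2 * τ₂) := by
    rw [← exp_add]
    congr 1
    ring
  have h2 : exp (2 * (τ₂ - 1)) * br Γ n a ≤ 1 / 4 * br Γ (n * Γ.flip) a := by
    rw [e, mul_assoc]
    have h3 := mul_le_mul_of_nonneg_left ha (exp_pos (-2)).le
    have h4 := mul_le_mul_of_nonneg_right exp_neg_two_le (br_nonneg Γ (n * Γ.flip) a)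
    exact h3.trans h4
  have h5 := mul_le_mul_of_nonneg_right h2 p1.le
  rw [br_comm Γ b a]
  linarith

theorem root_E {n a a' b : G} {E : List G} {τ₁ τ₂ : ℝ} (hτ : τ₁ + 3 ≤ τ₂)
    (ha : Γ.Ahead n τ₂ a) (ha' : Γ.Ahead n τ₂ a') (hb : b ∈ E) (hE : ∀ g ∈ E, Γ.Behind n τ₁ g)
    (hgen : Γ.Generic E) (hlen : 2 ≤ E.length) :
    Γ.E ((Γ.root n E)⁻¹ * (Γ.par b a' a * Γ.root n E)) ≤
      LC1 Γ * exp 2 * exp (-(τ₂ - τ₁)) := by
  rcases E with _ | ⟨b₁, D⟩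
  · simp at hlen
  have hD : D ≠ [] := by
    rintro rfl
    simp at hlen
  obtain ⟨h1, h2, h3, -⟩ := root_line Γ hD hgen hE
  have hb1 := hE b₁ List.mem_cons_self
  have h4 := root_ahead Γ (by linarith) hb1 ha
  have h4' := root_ahead Γ (by linarith) hb1 ha'
  rw [h1]
  refine (line_disp Γ le_rfl (by linarith) (by linarith) h4 h4' (h3 b hb)).trans ?_
  rw [mul_assoc, ← exp_add]
  apply mul_le_mul_of_nonneg_left _ (LC1_nonneg Γ)
  exact exp_le_exp.2 (by linarith)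

/-! ### the middle of a neck -/

theorem mid_line {n a₁ b₁ : G} {A B : List G} {τ₁ τ₂ : ℝ} (hτ : τ₁ + 1 ≤ τ₂) (hA0 : A ≠ [])
    (hB0 : B ≠ []) (hgen : Γ.Generic (a₁ :: A ++ b₁ :: B)) (hA : ∀ g ∈ a₁ :: A, Γ.Ahead n τ₂ g)
    (hB : ∀ g ∈ b₁ :: B, Γ.Behind n τ₁ g) : ∃ (l : G) (lo hi : ℝ),
    Γ.mid (a₁ :: A) (b₁ :: B) = Γ.ln l ((lo + hi) / 2) ∧ τ₂ - τ₁ - 4 ≤ hi - lo ∧
      (∀ g ∈ a₁ :: A, Γ.Ahead l hi g) ∧ (∀ g ∈ b₁ :: B, Γ.Behind l lo g) := by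
  obtain ⟨l, hl⟩ : ∃ l, l = Γ.line a₁ b₁ := ⟨_, rfl⟩
  have ha1 := hA a₁ List.mem_cons_self
  have hb1 := hB b₁ List.mem_cons_self
  have hne : ∀ a ∈ a₁ :: A, ∀ b ∈ b₁ :: B, ¬ Γ.SameEnd a b := by
    intro a ha b hb h
    exact not_same Γ (by linarith) (hB b hb) (hA a ha) (same_symm Γ h)
  have hn := hne a₁ List.mem_cons_self b₁ List.mem_cons_self
  have p0 := br_pos Γ hn
  unfold R1.Generic at hgen
  rw [List.cons_append, List.pairwise_cons] at hgen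
  obtain ⟨g1, g2⟩ := hgen
  rw [List.pairwise_append] at g2
  obtain ⟨-, g3, -⟩ := g2
  rw [List.pairwise_cons] at g3
  obtain ⟨g4, -⟩ := g3
  have hl1 : ∀ x, br Γ l x = br Γ a₁ x := fun x => by rw [hl, br_line]
  have hl2 : ∀ x, br Γ (l * Γ.flip) x = br Γ b₁ x / br Γ a₁ b₁ := fun x => by
    rw [hl, br_line_flip Γ hn]
  have posA : ∀ a ∈ A, 0 < br Γ l a ∧ 0 < br Γ (l * Γ.flip) a := by
    intro a ha
    refine ⟨?_, ?_⟩
    · rw [hl1]
      exact br_pos Γ (g1 a (List.mem_append_left _ ha))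
    · rw [hl2]
      apply div_pos _ p0
      rw [br_comm]
      exact br_pos Γ (hne a (List.mem_cons_of_mem _ ha) b₁ List.mem_cons_self)
  have posB : ∀ b ∈ B, 0 < br Γ l b ∧ 0 < br Γ (l * Γ.flip) b := by
    intro b hb
    refine ⟨?_, ?_⟩
    · rw [hl1]
      exact br_pos Γ (hne a₁ List.mem_cons_self b (List.mem_cons_of_mem _ hb))
    · rw [hl2]
      exact div_pos (br_pos Γ (g4 b hb)) p0
  have key : ∀ a ∈ A, ∀ b ∈ B, τ₂ - τ₁ - 4 ≤ Γ.prm l a - Γ.prm l b := by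
    intro a ha b hb
    obtain ⟨pa1, pa2⟩ := posA a ha
    obtain ⟨pb1, pb2⟩ := posB b hb
    have ha' := hA a (List.mem_cons_of_mem _ ha)
    have hb' := hB b (List.mem_cons_of_mem _ hb)
    have ea := exp_prm Γ pa1 pa2
    have eb := exp_prm Γ pb1 pb2
    rw [hl1, hl2] at ea eb
    rw [hl1] at pa1 pb1
    have c1 := angle Γ hτ ha' hb1
    have c2 := angle Γ hτ ha1 hb'
    have c3 := br_ahead Γ ha1 ha'
    have c4 := br_behind Γ hb1 hb'
    have n1 := ahead_pos Γ ha1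
    have n2 := ahead_pos Γ ha'
    have n3 := behind_pos Γ hb1
    have n4 := behind_pos Γ hb'
    -- lower bound for `a`
    have k1 : exp (2 * τ₂) * br Γ n b₁ / (16 * (br Γ a₁ b₁ * br Γ (n * Γ.flip) a₁)) ≤
        exp (2 * Γ.prm l a) := by
      rw [ea, div_div, div_le_div_iff₀ (by positivity) (by positivity)]
      have e : exp (2 * τ₂) * exp (-(2 * τ₂)) = 1 := by
        rw [← exp_add, add_neg_cancel, exp_zero]
      have d1 : exp (2 * τ₂) * br Γ a₁ a ≤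
          4 * (br Γ (n * Γ.flip) a₁ * br Γ (n * Γ.flip) a) := by
        have := mul_le_mul_of_nonneg_left c3 (exp_pos (2 * τ₂)).le
        calc _ ≤ _ := this
          _ = 4 * (exp (2 * τ₂) * exp (-(2 * τ₂))) *
              (br Γ (n * Γ.flip) a₁ * br Γ (n * Γ.flip) a) := by ring
          _ = _ := by rw [e]; ring
      rw [br_comm Γ a b₁] at c1
      have d2 := mul_le_mul_of_nonneg_left d1 (mul_pos n3 p0).le
      have d3 := mul_le_mul_of_nonneg_left c1 (mul_pos p0 n1).le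
      nlinarith
    have k2 : exp (2 * Γ.prm l b) ≤
        16 * exp (2 * τ₁) * br Γ n b₁ / (br Γ a₁ b₁ * br Γ (n * Γ.flip) a₁) := by
      rw [eb, div_div, div_le_div_iff₀ (by positivity) (by positivity)]
      have d2 := mul_le_mul_of_nonneg_left c4 (mul_pos p0 n1).le
      have d3 := mul_le_mul_of_nonneg_left c2
        (by positivity : 0 ≤ 4 * exp (2 * τ₁) * (br Γ n b₁ * br Γ a₁ b₁))
      nlinarith
    have k3 : exp (2 * Γ.prm l b) * exp (2 * (τ₂ - τ₁ - 4)) ≤ exp (2 * Γ.prm l a) := by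
      refine le_trans (mul_le_mul_of_nonneg_right k2 (exp_pos _).le) (le_trans ?_ k1)
      rw [div_mul_eq_mul_div, div_le_div_iff₀ (by positivity) (by positivity)]
      have e : exp (2 * τ₁) * exp (2 * (τ₂ - τ₁ - 4)) = exp (2 * τ₂) * exp (-8) := by
        rw [← exp_add, ← exp_add]
        congr 1
        ring
      have e2 : exp (-8) * 256 ≤ (1 : ℝ) := by
        have h1 := mul_le_mul_of_nonneg_left le_exp_eight (exp_pos (-8)).le
        have h2 : exp (-8) * exp 8 = (1 : ℝ) := by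
          rw [← exp_add]
          norm_num
        linarith
      have e3 := mul_le_mul_of_nonneg_left e2
        (by positivity : 0 ≤ exp (2 * τ₂) * br Γ n b₁ * (br Γ a₁ b₁ * br Γ (n * Γ.flip) a₁))
      calc 16 * exp (2 * τ₁) * br Γ n b₁ * exp (2 * (τ₂ - τ₁ - 4)) *
            (16 * (br Γ a₁ b₁ * br Γ (n * Γ.flip) a₁)) =
          256 * (exp (2 * τ₁) * exp (2 * (τ₂ - τ₁ - 4))) *
            (br Γ n b₁ * (br Γ a₁ b₁ * br Γ (n * Γ.flip) a₁)) := by ring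
        _ = exp (2 * τ₂) * br Γ n b₁ * (br Γ a₁ b₁ * br Γ (n * Γ.flip) a₁) *
            (exp (-8) * 256) := by rw [e]; ring
        _ ≤ _ := e3
        _ = _ := by ring
    rw [← exp_add] at k3
    have := exp_le_exp.1 k3
    linarith
  refine ⟨l, lmax (B.map (Γ.prm l)), lmin (A.map (Γ.prm l)), ?_, ?_, ?_, ?_⟩
  · rw [hl]
    rfl
  · obtain ⟨a, ha, ha2⟩ := List.mem_map.1 (lmin_mem (l := A.map (Γ.prm l)) (by simpa using hA0))
    obtain ⟨b, hb, hb2⟩ := List.mem_map.1 (lmax_mem (l := B.map (Γ.prm l)) (by simpa using hB0))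
    rw [← ha2, ← hb2]
    exact key a ha b hb
  · intro g hg
    rcases List.mem_cons.1 hg with rfl | hg
    · rw [ahead_iff, hl1, br_self, mul_zero]
      exact br_nonneg _ _ _
    · obtain ⟨q1, q2⟩ := posA g hg
      exact prm_ahead Γ q1 q2 (lmin_le (List.mem_map_of_mem hg))
  · intro g hg
    rcases List.mem_cons.1 hg with rfl | hg
    · rw [behind_iff, hl2, br_self, zero_div]
      exact mul_nonneg (exp_pos _).le (br_nonneg _ _ _)
    · obtain ⟨q1, q2⟩ := posB g hg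
      exact prm_behind Γ q1 q2 (le_lmax (List.mem_map_of_mem hg))

theorem mid_split {n : G} {A B : List G} {τ₁ τ₂ : ℝ} (hτ : τ₁ + 1 ≤ τ₂) (hA0 : 2 ≤ A.length)
    (hB0 : 2 ≤ B.length) (hgen : Γ.Generic (A ++ B)) (hA : ∀ g ∈ A, Γ.Ahead n τ₂ g)
    (hB : ∀ g ∈ B, Γ.Behind n τ₁ g) : ∃ (l : G) (lo hi : ℝ),
    Γ.mid A B = Γ.ln l ((lo + hi) / 2) ∧ τ₂ - τ₁ - 4 ≤ hi - lo ∧
      (∀ g ∈ A, Γ.Ahead l hi g) ∧ (∀ g ∈ B, Γ.Behind l lo g) := by
  rcases A with _ | ⟨a₁, A⟩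
  · simp at hA0
  rcases B with _ | ⟨b₁, B⟩
  · simp at hB0
  refine mid_line Γ hτ ?_ ?_ hgen hA hB
  · rintro rfl
    simp at hA0
  · rintro rfl
    simp at hB0

theorem mid_E {n a a' b : G} {A B : List G} {τ₁ τ₂ : ℝ} (hτ : τ₁ + 5 ≤ τ₂)
    (hA0 : 2 ≤ A.length) (hB0 : 2 ≤ B.length) (hgen : Γ.Generic (A ++ B))
    (hA : ∀ g ∈ A, Γ.Ahead n τ₂ g) (hB : ∀ g ∈ B, Γ.Behind n τ₁ g) (ha : a ∈ A) (ha' : a' ∈ A)
    (hb : b ∈ B) : Γ.E ((Γ.mid A B)⁻¹ * (Γ.par b a' a * Γ.mid A B)) ≤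
      LC1 Γ * exp 2 * exp (-(τ₂ - τ₁) / 2) := by
  obtain ⟨l, lo, hi, h1, h2, h3, h4⟩ := mid_split Γ (by linarith) hA0 hB0 hgen hA hB
  rw [h1]
  refine (line_disp Γ (τ₁ := lo) (τ₂ := hi) (by linarith) (by linarith) (by linarith) (h3 a ha)
    (h3 a' ha') (h4 b hb)).trans ?_
  rw [mul_assoc, ← exp_add]
  apply mul_le_mul_of_nonneg_left _ (LC1_nonneg Γ)
  exact exp_le_exp.2 (by linarith)

theorem mid_E' {n a b b' : G} {A B : List G} {τ₁ τ₂ : ℝ} (hτ : τ₁ + 5 ≤ τ₂)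
    (hA0 : 2 ≤ A.length) (hB0 : 2 ≤ B.length) (hgen : Γ.Generic (A ++ B))
    (hA : ∀ g ∈ A, Γ.Ahead n τ₂ g) (hB : ∀ g ∈ B, Γ.Behind n τ₁ g) (ha : a ∈ A) (hb : b ∈ B)
    (hb' : b' ∈ B) : Γ.E ((Γ.mid A B)⁻¹ * (Γ.par a b' b * Γ.mid A B)) ≤
      LC1 Γ * exp 2 * exp (-(τ₂ - τ₁) / 2) := by
  obtain ⟨l, lo, hi, h1, h2, h3, h4⟩ := mid_split Γ (by linarith) hA0 hB0 hgen hA hB
  rw [h1]
  refine (line_disp' Γ (τ₁ := lo) (τ₂ := hi) (by linarith) (by linarith) (by linarith) (h3 a ha)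
    (h4 b hb) (h4 b' hb')).trans ?_
  rw [mul_assoc, ← exp_add]
  apply mul_le_mul_of_nonneg_left _ (LC1_nonneg Γ)
  exact exp_le_exp.2 (by linarith)

/-! ### equivariance -/

theorem root_mul (h n : G) (D : List G) : Γ.root (h * n) (D.map (h * ·)) = h * Γ.root n D := by
  rcases D with _ | ⟨b, D⟩
  · rfl
  · have e : (D.map (h * ·)).map (Γ.prm (h * Γ.line n b)) = D.map (Γ.prm (Γ.line n b)) := by
      rw [List.map_map]
      apply List.map_congr_left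
      intro g _
      exact prm_mul Γ h _ g
    show Γ.line (h * n) (h * b) *
        Γ.dg (lmax ((D.map (h * ·)).map (Γ.prm (Γ.line (h * n) (h * b))))) =
      h * (Γ.line n b * Γ.dg (lmax (D.map (Γ.prm (Γ.line n b)))))
    rw [line_mul, e, mul_assoc]

theorem mid_mul (h : G) (A B : List G) (hA : A ≠ []) (hB : B ≠ []) :
    Γ.mid (A.map (h * ·)) (B.map (h * ·)) = h * Γ.mid A B := by
  rcases A with _ | ⟨a, A⟩
  · exact absurd rfl hA
  rcases B with _ | ⟨b, B⟩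
  · exact absurd rfl hB
  have e : ∀ l : List G, (l.map (h * ·)).map (Γ.prm (h * Γ.line a b)) =
      l.map (Γ.prm (Γ.line a b)) := by
    intro l
    rw [List.map_map]
    apply List.map_congr_left
    intro g _
    exact prm_mul Γ h _ g
  show Γ.line (h * a) (h * b) *
      Γ.dg ((lmax ((B.map (h * ·)).map (Γ.prm (Γ.line (h * a) (h * b)))) +
        lmin ((A.map (h * ·)).map (Γ.prm (Γ.line (h * a) (h * b))))) / 2) =
    h * (Γ.line a b * Γ.dg ((lmax (B.map (Γ.prm (Γ.line a b))) +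
      lmin (A.map (Γ.prm (Γ.line a b)))) / 2))
  rw [line_mul, e, e, mul_assoc]

/-! ### the parabolic elements -/

theorem par_fix (b a' a : G) : Γ.SameEnd b (Γ.par b a' a * b) := by
  have hm : Γ.nu (b⁻¹ * a) * (Γ.nu (b⁻¹ * a'))⁻¹ ∈ Γ.U :=
    Γ.U.mul_mem (Γ.nu_mem _) (Γ.U.inv_mem (Γ.nu_mem _))
  have e : Γ.par b a' a * b = b * (Γ.nu (b⁻¹ * a) * (Γ.nu (b⁻¹ * a'))⁻¹) := by
    unfold R1.par
    group
  rw [e]
  exact same_U Γ hm b

theorem par_b (b a' a : G) (x : G) : br Γ (Γ.par b a' a * b) x = br Γ b x := by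
  have hm : Γ.nu (b⁻¹ * a) * (Γ.nu (b⁻¹ * a'))⁻¹ ∈ Γ.U :=
    Γ.U.mul_mem (Γ.nu_mem _) (Γ.U.inv_mem (Γ.nu_mem _))
  have e : Γ.par b a' a * b = b * (Γ.nu (b⁻¹ * a) * (Γ.nu (b⁻¹ * a'))⁻¹) := by
    unfold R1.par
    group
  rw [e, br_U Γ hm]

theorem par_map {b a' a : G} (h' : ¬ Γ.SameEnd b a') (h : ¬ Γ.SameEnd b a) :
    Γ.SameEnd a (Γ.par b a' a * a') := by
  have h1 := line_flip Γ h'
  have h2 := line_flip Γ h
  rw [← same_mul Γ (Γ.par b a' a)] at h1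
  have e : Γ.par b a' a * (Γ.line b a' * Γ.flip) = Γ.line b a * Γ.flip := by
    unfold R1.par R1.line
    group
  rw [e] at h1
  exact same_trans Γ (same_symm Γ h2) h1

end Pool.Agent.H99.BR
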